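import Pool.Agent.Q200.SFD.Smooth
import Pool.Agent.Z125.UN.MotUni
import Pool.Agent.Z125.UN.Sym

/-!
# Schur-finiteness of motives with compact support, products and Kummer coverings
-/

set_option autoImplicit false

open CategoryTheory MonoidalCategory AlgebraicGeometry TensorProduct Pool.Agent.TH137.DG
  Pool.Agent.Y116.UV Pool.Agent.Z125.UN

namespace Pool.Agent.Q200.SFD

universe v u

variable {k : Type} [Field k] {C : Type u} [Category.{v} C] [MonoidalCategory C]
  [SymmetricCategory C] [Preadditive C] [Linear ℚ C] [Limits.HasZeroObject C] [HasShift C ℤ]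
  [∀ n : ℤ, (shiftFunctor C n).Additive] [Pretriangulated C]

/-- The ring `A[s] / (s ^ N - e)`. -/
abbrev KumR (A : Type) [CommRing A] (e : A) (N : ℕ) : Type :=
  AdjoinRoot (Polynomial.X ^ N - Polynomial.C e)

/-- The motive with compact support of `Spec A × Spec B` is the tensor product. -/
def KunnethFor (D : Motives k C) (A B : Type) [CommRing A] [CommRing B] [Algebra k A]
    [Algebra k B] : Prop :=
  Nonempty (D.Mc (aff k (A ⊗[k] B)) ≅ D.Mc (aff k A) ⊗ D.Mc (aff k B))

omit [MonoidalCategory C] [SymmetricCategory C] [Preadditive C] [Linear ℚ C]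
  [Limits.HasZeroObject C] [HasShift C ℤ] [∀ n : ℤ, (shiftFunctor C n).Additive]
  [Pretriangulated C] in
/-- `X` is a direct summand (retract) of `Y`. -/
def IsSummand (X Y : C) : Prop := ∃ (s : X ⟶ Y) (r : Y ⟶ X), s ≫ r = 𝟙 X

/-- The motive with compact support of `Spec A` is a direct summand of the one of
`Spec A[s] / (s ^ N - e)`. -/
def SummandFor (D : Motives k C) (A : Type) [CommRing A] [Algebra k A] (e : A) (N : ℕ) : Prop :=
  IsSummand (D.Mc (aff k A)) (D.Mc (aff k (KumR A e N)))

/-- Further standard properties of motives with rational coefficients over a perfect field `k`.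

* `tensor`: the tensor product of two Schur-finite objects is Schur-finite (Deligne);
* `kunneth`: the motive with compact support of a product is the tensor product of the motives with
  compact support (Voevodsky, Kelly);
* `cover`: for the finite flat covering `p : Spec A[s] / (s ^ N - e) → Spec A` of degree `N > 0` the
  composition of `p ^ *` and `p_*` is the multiplication by `N` on the motive with compact support,
  so that the one of `Spec A` is a direct summand of the one of the covering (Voevodsky, Kelly). -/
structure IsMultiplicative (D : Motives k C) : Prop where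
  tensor : ∀ A B : C, IsSchurFinite A → IsSchurFinite B → IsSchurFinite (A ⊗ B)
  kunneth : ∀ (A B : Type) [CommRing A] [CommRing B] [Algebra k A] [Algebra k B]
    [Algebra.FiniteType k A] [Algebra.FiniteType k B], KunnethFor D A B
  cover : ∀ (A : Type) [CommRing A] [Algebra k A] [Algebra.FiniteType k A] (e : A) (N : ℕ), 0 < N →
    SummandFor D A e N

variable {D : Motives k C}

/-- Schur-finiteness of the motive with compact support has the properties `Cov`. -/
theorem cov_sf (hD : IsMotives D) (hM : IsMultiplicative D) :
    Cov fun X : Sch k => IsSchurFinite (D.Mc X) where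
  toBnd := bnd_sf hD
  kummer A _ _ _ e N hN h := by
    obtain ⟨s, r, hs⟩ := hM.cover A e N hN
    exact sf_retract s r hs h
  prod A B _ _ _ _ _ _ hA hB := (sf_iso (hM.kunneth A B)).mpr (hM.tensor _ _ hA hB)

/-- small dimension -/
lemma dm_sf [PerfectField k] (hD : IsMotives D) {n : ℕ}
    (h : ∀ X : Sch k, FT True X → Smooth X.hom → topologicalKrullDim X.left ≤ n →
      IsSchurFinite (D.M X)) : Dm (fun X : Sch k => IsSchurFinite (D.Mc X)) n := by
  intro A _ _ _ hA
  have h1 : ∀ X : Sch k, FT True X → topologicalKrullDim X.left ≤ n → IsSchurFinite (D.Mc X) :=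
    dim_smooth (bnd_sf hD) n fun X hX hs hn => (hD.duality X hX hs).mp (h X hX hs hn)
  exact h1 _ (ft_aff True) (by rw [topDim_aff]; exact hA)

/-- trilinear forms with a block of at most `n + 2` variables -/
lemma tri_sf (hD : IsMotives D) {n : ℕ} (h : Dm (fun X : Sch k => IsSchurFinite (D.Mc X)) n)
    {a b c : ℕ} (T : Fin a → Fin b → Fin c → k) (hm : a ≤ n + 2 ∨ b ≤ n + 2 ∨ c ≤ n + 2) :
    IsSchurFinite (D.Mc (hypS T)) :=
  of_block (bnd_sf hD) (fun a b c' hc' T => to_tri (bnd_sf hD)
    (dim_to_closed (bnd_sf hD) (n := n) fun A _ _ _ hA => h A hA) a b c' hc' T) T hm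

end Pool.Agent.Q200.SFD
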