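import Pool.Agent.Q200.SFC.Iso

/-!
# Properties of schemes which are stable under products and descend along Kummer coverings
-/

set_option autoImplicit false

open MvPolynomial TensorProduct Pool.Agent.Z125.UN Pool.Agent.Y116.UV Pool.Agent.Q200.SFC

namespace Pool.Agent.Q200.SFD

/-- Closure properties: as `Bnd`, and the property descends along the finite flat coverings
`s ^ N = e` and is stable under products. -/
structure Cov {k : Type} [Field k] (P : Sch k → Prop) : Prop extends Bnd True P where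
  kummer : ∀ (A : Type) [CommRing A] [Algebra k A] [Algebra.FiniteType k A] (e : A) (N : ℕ),
    0 < N → P (aff k (AdjoinRoot (Polynomial.X ^ N - Polynomial.C e))) → P (aff k A)
  prod : ∀ (A B : Type) [CommRing A] [CommRing B] [Algebra k A] [Algebra k B]
    [Algebra.FiniteType k A] [Algebra.FiniteType k B],
    P (aff k A) → P (aff k B) → P (aff k (A ⊗[k] B))

variable {k : Type} [Field k] {P : Sch k → Prop}

section same

variable {σ κ κ' : Type} {G : κ → MvPolynomial σ k} {w : MvPolynomial σ k}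
  {G' : κ' → MvPolynomial σ k} {w' : MvPolynomial σ k}

/-- Two presentations with the same coordinates. -/
noncomputable def sameE (h1 : ∀ j, pc G' w' (G j) = 0) (h2 : IsUnit (pc G' w' w))
    (h3 : ∀ j, pc G w (G' j) = 0) (h4 : IsUnit (pc G w w')) : Pc G w ≃ₐ[k] Pc G' w' :=
  pcEquiv (pv G' w') (fun j => by rw [pc_aeval]; exact h1 j) (by rw [pc_aeval]; exact h2)
    (pv G w) (fun j => by rw [pc_aeval]; exact h3 j) (by rw [pc_aeval]; exact h4)
    (fun s => pcLift_pv _ _ _ _ _ _) (fun s => pcLift_pv _ _ _ _ _ _)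

lemma same (hP : Cov P) [Finite σ] (h1 : ∀ j, pc G' w' (G j) = 0) (h2 : IsUnit (pc G' w' w))
    (h3 : ∀ j, pc G w (G' j) = 0) (h4 : IsUnit (pc G w w')) (h : P (aff k (Pc G w))) :
    P (aff k (Pc G' w')) :=
  iso_alg hP.toUni (sameE h1 h2 h3 h4) h

end same

lemma kum (hP : Cov P) {σ κ : Type} [Finite σ] {G : κ → MvPolynomial σ k}
    {w : MvPolynomial σ k} (e : MvPolynomial σ k) {N : ℕ} (hN : 0 < N)
    (h : P (aff k (Pc (kr G e N) (rename Sum.inl w)))) : P (aff k (Pc G w)) :=
  hP.kummer (Pc G w) (pc G w e) N hN (iso_alg hP.toUni (kE G w e N).symm h)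

lemma prd (hP : Cov P) {σ κ σ' κ' : Type} [Finite σ] [Finite σ'] {G : κ → MvPolynomial σ k}
    {w : MvPolynomial σ k} {G' : κ' → MvPolynomial σ' k} {w' : MvPolynomial σ' k}
    (h : P (aff k (Pc G w))) (h' : P (aff k (Pc G' w'))) :
    P (aff k (Pc (two G G') (bw w w'))) := by
  have h1 := hP.prod _ _ h h'
  have h2 : Algebra.FiniteType k (Pc G w ⊗[k] Pc G' w') :=
    Algebra.FiniteType.trans (S := Pc G w) inferInstance inferInstance
  exact iso_alg hP.toUni (tE G w G' w') h1

/-- affine space -/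
lemma spc (hP : Cov P) (σ : Type) [Fintype σ] :
    P (aff k (Pc (Empty.elim : Empty → MvPolynomial σ k) 1)) := by
  have h1 : P (aff k (MvPolynomial σ k)) :=
    iso_alg hP.toUni (renameEquiv k (Fintype.equivFin σ).symm) (hP.space _)
  have hb : Ideal.span (Set.range (Empty.elim : Empty → MvPolynomial σ k)) = ⊥ := by
    rw [Ideal.span_eq_bot]
    rintro _ ⟨⟨⟩, _⟩
  have e : MvPolynomial σ k ≃ₐ[k]
      (MvPolynomial σ k ⧸ Ideal.span (Set.range (Empty.elim : Empty → MvPolynomial σ k))) :=
    ((AlgEquiv.quotientBot k (MvPolynomial σ k)).symm).trans (Ideal.quotientEquivAlgOfEq k hb.symm)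
  exact iso_alg hP.toUni (e.trans (oneE _)) h1

section eval

variable {σ τ : Type} {A : Type} [CommRing A] [Algebra k A]

lemma aeval_aeval {ι σ : Type} (x : σ → A) (g : ι → MvPolynomial σ k) (p : MvPolynomial ι k) :
    aeval x (aeval g p) = aeval (fun i => aeval x (g i)) p := by
  have h : (aeval x).comp (aeval g) = (aeval (fun i => aeval x (g i)) : MvPolynomial ι k →ₐ[k] A) := by
    apply MvPolynomial.algHom_ext
    intro i
    rw [AlgHom.comp_apply, aeval_X, aeval_X]
  exact congrArg (fun f : MvPolynomial ι k →ₐ[k] A => f p) h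

lemma aeval_bw (x : σ ⊕ τ → A) (w : MvPolynomial σ k) (w' : MvPolynomial τ k) :
    aeval x (bw w w') =
      aeval (fun i => x (Sum.inl i)) w * aeval (fun j => x (Sum.inr j)) w' := by
  rw [bw, map_mul, aeval_rename, aeval_rename]
  rfl

omit [Algebra k A] in
lemma prod_zpow_sum {ι : Type} (ζ : Aˣ) (s : Finset ι) (f : ι → ℤ) :
    ∏ i ∈ s, ζ ^ f i = ζ ^ (∑ i ∈ s, f i) := by
  classical
  induction s using Finset.induction_on with
  | empty => rw [Finset.prod_empty, Finset.sum_empty, zpow_zero]
  | insert a s ha ih => rw [Finset.prod_insert ha, Finset.sum_insert ha, ih, zpow_add]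

/-- The value of a weighted homogeneous polynomial at a scaled point. -/
lemma aeval_zscale {F : MvPolynomial σ k} {w : σ → ℤ} {N : ℤ} (hF : IsWeightedHomogeneous w F N)
    (ζ : Aˣ) (x : σ → A) :
    aeval (fun i => ((ζ ^ w i : Aˣ) : A) * x i) F = ((ζ ^ N : Aˣ) : A) * aeval x F := by
  rw [aeval_def, aeval_def, eval₂_eq, eval₂_eq, Finset.mul_sum]
  refine Finset.sum_congr rfl fun d hd => ?_
  have h1 : Finsupp.weight w d = N := hF (mem_support_iff.1 hd)
  have h2 : ∏ i ∈ d.support, (((ζ ^ w i : Aˣ) : A) * x i) ^ d i =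
      ((ζ ^ N : Aˣ) : A) * ∏ i ∈ d.support, x i ^ d i := by
    simp only [mul_pow]
    rw [Finset.prod_mul_distrib]
    congr 1
    rw [← h1, Finsupp.weight_apply, Finsupp.sum, ← prod_zpow_sum, Units.coe_prod]
    refine Finset.prod_congr rfl fun i _ => ?_
    rw [← Units.val_pow_eq_pow_val, ← zpow_natCast, ← zpow_mul, mul_comm, nsmul_eq_mul]
  rw [h2]
  ring

end eval

section perm

variable {V V' K K' : Type}

/-- renaming of the variables and of the relations -/
lemma perm (hP : Cov P) [Finite V] (ε : V ≃ V') {G : K → MvPolynomial V k}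
    {G' : K' → MvPolynomial V' k} {w : MvPolynomial V k} {w' : MvPolynomial V' k}
    (h1 : ∀ j, ∃ j', rename ε (G j) = G' j') (h2 : ∀ j', ∃ j, rename ε (G j) = G' j')
    (hw : rename ε w = w') (h : P (aff k (Pc G w))) : P (aff k (Pc G' w')) := by
  have e1 : ∀ p : MvPolynomial V k, aeval (fun v => pv G' w' (ε v)) p = pc G' w' (rename ε p) := by
    intro p
    rw [← pc_aeval, aeval_rename]
    rfl
  have e2 : ∀ p : MvPolynomial V k, aeval (fun v => pv G w (ε.symm v)) (rename ε p) = pc G w p := by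
    intro p
    rw [← pc_aeval, aeval_rename]
    congr 2
    funext v
    change pv G w (ε.symm (ε v)) = _
    rw [Equiv.symm_apply_apply]
  have ha : ∀ j, aeval (fun v => pv G' w' (ε v)) (G j) = 0 := by
    intro j
    obtain ⟨j', hj⟩ := h1 j
    rw [e1, hj, pc_rel]
  have ha' : IsUnit (aeval (fun v => pv G' w' (ε v)) w) := by
    rw [e1, hw]
    exact pc_unit _ _
  have hb : ∀ j', aeval (fun v => pv G w (ε.symm v)) (G' j') = 0 := by
    intro j'
    obtain ⟨j, hj⟩ := h2 j'
    rw [← hj, e2, pc_rel]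
  have hb' : IsUnit (aeval (fun v => pv G w (ε.symm v)) w') := by
    rw [← hw, e2]
    exact pc_unit _ _
  refine iso_alg hP.toUni (pcEquiv _ ha ha' _ hb hb' ?_ ?_) h
  · intro v
    rw [pcLift_pv, Equiv.symm_apply_apply]
  · intro v
    rw [pcLift_pv, Equiv.apply_symm_apply]

end perm

/-- The affine scheme `G = 0` with the action of the multiplicative group with the weights `w` on the
coordinates, the semi-invariant function `F` of weight `N > 0`, and the subschemes `F = 0` and `F = 1`
have the property `P`. -/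
structure Sp (P : Sch k → Prop) {σ κ : Type} (G : κ → MvPolynomial σ k) (F : MvPolynomial σ k)
    (w : σ → ℤ) (N : ℕ) : Prop where
  eqs : ∀ j, ∃ d : ℤ, IsWeightedHomogeneous w (G j) d
  homog : IsWeightedHomogeneous w F (N : ℤ)
  pos : 0 < N
  zero : P (aff k (Pc (adj G F) 1))
  level : P (aff k (Pc (adj G (F - 1)) 1))

end Pool.Agent.Q200.SFD
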