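import Pool.Agent.Q200.SFD.Many

/-!
# Preimages and compositions
-/

set_option autoImplicit false

open MvPolynomial TensorProduct Pool.Agent.Z125.UN Pool.Agent.Y116.UV Pool.Agent.Q200.SFC

namespace Pool.Agent.Q200.SFD

variable {k : Type} [Field k] {P : Sch k → Prop}

section homog

variable {σ τ M : Type} [AddCommMonoid M]

lemma homog_rename {F : MvPolynomial σ k} (f : σ → τ) {w : τ → M} {N : M}
    (hF : IsWeightedHomogeneous (fun i => w (f i)) F N) :
    IsWeightedHomogeneous w (rename f F) N := by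
  intro d hd
  obtain ⟨u, rfl, hu⟩ := coeff_rename_ne_zero f F d hd
  rw [← hF hu]
  rw [Finsupp.weight_apply, Finsupp.weight_apply]
  exact Finsupp.sum_mapDomain_index (fun _ => zero_smul _ _) fun _ _ _ => add_smul _ _ _

lemma homog_aeval {ι : Type} {h : MvPolynomial ι k} {n : ι → ℕ} {L : ℕ}
    (hh : IsWeightedHomogeneous n h L) (g : ι → MvPolynomial σ k) {w : σ → ℤ}
    (hg : ∀ i, IsWeightedHomogeneous w (g i) (n i : ℤ)) :
    IsWeightedHomogeneous w (aeval g h) (L : ℤ) := by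
  rw [aeval_def, eval₂_eq]
  refine IsWeightedHomogeneous.sum _ _ _ fun d hd => ?_
  have h1 : Finsupp.weight n d = L := hh (mem_support_iff.1 hd)
  have h2 : IsWeightedHomogeneous w (∏ i ∈ d.support, g i ^ d i)
      (∑ i ∈ d.support, d i • (n i : ℤ)) :=
    IsWeightedHomogeneous.prod _ _ _ fun i _ => (hg i).pow (d i)
  have h4 : ∑ i ∈ d.support, d i • (n i : ℤ) = (L : ℤ) := by
    rw [← h1, Finsupp.weight_apply, Finsupp.sum]
    push_cast
    refine Finset.sum_congr rfl fun i _ => ?_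
    rw [nsmul_eq_mul, smul_eq_mul, Nat.cast_mul]
  rw [h4] at h2
  have h3 := (isWeightedHomogeneous_C w (coeff d h)).mul h2
  rwa [zero_add] at h3

lemma homog_scale {F : MvPolynomial σ k} {w : σ → ℤ} {N : ℤ} (m : ℤ)
    (hF : IsWeightedHomogeneous w F N) : IsWeightedHomogeneous (fun i => m * w i) F (m * N) := by
  intro d hd
  rw [← hF hd, Finsupp.weight_apply, Finsupp.weight_apply, Finsupp.sum, Finsupp.sum,
    Finset.mul_sum]
  refine Finset.sum_congr rfl fun i _ => ?_
  rw [nsmul_eq_mul, nsmul_eq_mul]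
  ring

lemma homog_cast {F : MvPolynomial σ k} {w : σ → ℕ} {N : ℕ} (hF : IsWeightedHomogeneous w F N) :
    IsWeightedHomogeneous (fun i => (w i : ℤ)) F (N : ℤ) := by
  intro d hd
  rw [← hF hd, Finsupp.weight_apply, Finsupp.weight_apply, Finsupp.sum, Finsupp.sum]
  push_cast
  refine Finset.sum_congr rfl fun i _ => ?_
  rw [nsmul_eq_mul, smul_eq_mul, Nat.cast_mul]

end homog

lemma pc_comp {σ κ ι : Type} (G : κ → MvPolynomial σ k) (w : MvPolynomial σ k)
    (g : ι → MvPolynomial σ k) (h : MvPolynomial ι k) :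
    pc G w (aeval g h) = aeval (fun i => pc G w (g i)) h := by
  rw [← pc_aeval, aeval_aeval]
  simp only [pc_aeval]

lemma pc_sub_rel {σ κ : Type} (Q : κ → MvPolynomial σ k) (U : MvPolynomial σ k) {j : κ}
    {a b : MvPolynomial σ k} (hj : Q j = a - b) : pc Q U a = pc Q U b := by
  have h1 := pc_rel Q U j
  rw [hj, map_sub, sub_eq_zero] at h1
  exact h1

section pre

variable {m : ℕ} {σ κ : Fin m → Type} (G : ∀ i, κ i → MvPolynomial (σ i) k)
  (F : ∀ i, MvPolynomial (σ i) k)

/-- the polynomial `h (F_1 (x_1), …, F_m (x_m))` -/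
noncomputable def cmm (h : MvPolynomial (Fin m) k) : MvPolynomial (Σ i, σ i) k :=
  aeval (fun i => rename (Sigma.mk i) (F i)) h

lemma pc_cmm {κ' : Type} (Q : κ' → MvPolynomial (Σ i, σ i) k) (U : MvPolynomial (Σ i, σ i) k)
    (p : MvPolynomial (Fin m) k) :
    pc Q U (cmm F p) = aeval (fun i => pc Q U (rename (Sigma.mk i) (F i))) p := pc_comp _ _ _ _

lemma aeval_cmm {A : Type} [CommRing A] [Algebra k A] (b : (Σ i, σ i) → A)
    (p : MvPolynomial (Fin m) k) :
    aeval b (cmm F p) = aeval (fun i => aeval b (rename (Sigma.mk i) (F i))) p := aeval_aeval _ _ _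

lemma cmm_one : cmm F (1 : MvPolynomial (Fin m) k) = 1 := map_one _

/-- the relations `G_i (x_i) = 0` of the product -/
noncomputable def allr (j : Σ i, κ i) : MvPolynomial (Σ i, σ i) k :=
  rename (Sigma.mk j.1) (G j.1 j.2)

variable {ι : Type} (h : ι → MvPolynomial (Fin m) k) (g : MvPolynomial (Fin m) k)

/-- the relations of the preimage of `h = 0` in the product -/
noncomputable def prr : (Σ i, κ i) ⊕ ι → MvPolynomial (Σ i, σ i) k :=
  Sum.elim (allr G) fun j => cmm F (h j)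

/-- the coordinates of affine space -/
noncomputable def crd (m : ℕ) (i : Fin m) : MvPolynomial (Fin m) k := X i

lemma mf_val {τ : Type} (H : ι → MvPolynomial τ k) (e : Fin m → MvPolynomial τ k)
    (i : Fin m) : mf H G F e (Sum.inr ⟨i, none⟩) =
      (rename (fun x : σ i => (Sum.inl ⟨i, x⟩ : (Σ i, σ i) ⊕ τ)) (F i) : MvPolynomial _ k) -
        (rename Sum.inr (e i) : MvPolynomial ((Σ i, σ i) ⊕ τ) k) := rfl

lemma mf_none (i : Fin m) : mf h G F (crd m) (Sum.inr ⟨i, none⟩) =
    (rename (fun x : σ i => (Sum.inl ⟨i, x⟩ : (Σ i, σ i) ⊕ Fin m)) (F i) : MvPolynomial _ k) -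
      (X (Sum.inr i) : MvPolynomial ((Σ i, σ i) ⊕ Fin m) k) := by
  rw [mf_val, crd, rename_X]

lemma pre_eq (i : Fin m) : pc (mf h G F (crd m)) (rename Sum.inr g)
    (rename (fun x => Sum.inl ⟨i, x⟩) (F i)) = pv (mf h G F (crd m)) (rename Sum.inr g)
      (Sum.inr i) := by
  have h1 : pc (mf h G F (crd m)) (rename Sum.inr g) (rename (fun x => Sum.inl ⟨i, x⟩) (F i)) =
      pc (mf h G F (crd m)) (rename Sum.inr g) (X (Sum.inr i)) :=
    pc_sub_rel (mf h G F (crd m)) (rename Sum.inr g) (j := Sum.inr ⟨i, none⟩) (mf_none G F h i)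
  rw [h1]
  rfl

/-- The fibre product over a locally closed subscheme of affine space is the preimage. -/
lemma pre_of (hP : Cov P) [∀ i, Finite (σ i)]
    (hm : P (aff k (Pc (mf h G F (crd m)) (rename Sum.inr g)))) :
    P (aff k (Pc (prr G F h) (cmm F g))) := by
  let a : (Σ i, σ i) ⊕ Fin m → Pc (prr G F h) (cmm F g) :=
    Sum.elim (pv _ _) fun i => pc _ _ (rename (Sigma.mk i) (F i))
  let b : (Σ i, σ i) → Pc (mf h G F (crd m)) (rename Sum.inr g) := fun y => pv _ _ (Sum.inl y)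
  have a1 : ∀ p : MvPolynomial (Fin m) k, aeval a (rename Sum.inr p) =
      pc (prr G F h) (cmm F g) (cmm F p) := by
    intro p
    rw [aeval_rename, pc_cmm]
    rfl
  have a2 : ∀ (i : Fin m) (p : MvPolynomial (σ i) k), aeval a (rename (fun x => Sum.inl ⟨i, x⟩) p) =
      pc (prr G F h) (cmm F g) (rename (Sigma.mk i) p) := by
    intro i p
    rw [aeval_rename, ← pc_aeval, aeval_rename]
    rfl
  have b1 : ∀ (i : Fin m) (p : MvPolynomial (σ i) k), aeval b (rename (Sigma.mk i) p) =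
      pc (mf h G F (crd m)) (rename Sum.inr g) (rename (fun x => Sum.inl ⟨i, x⟩) p) := by
    intro i p
    rw [aeval_rename, ← pc_aeval, aeval_rename]
    rfl
  have b2 : ∀ p : MvPolynomial (Fin m) k, aeval b (cmm F p) =
      pc (mf h G F (crd m)) (rename Sum.inr g) (rename Sum.inr p) := by
    intro p
    rw [aeval_cmm, ← pc_aeval, aeval_rename]
    have h1 : (fun i => aeval b (rename (Sigma.mk i) (F i))) =
        pv (mf h G F (crd m)) (rename Sum.inr g) ∘ Sum.inr := by
      funext i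
      rw [b1, pre_eq]
      rfl
    rw [h1]
  have ha : ∀ j, aeval a (mf h G F (crd m) j) = 0 := by
    rintro (j | ⟨i, _ | l⟩)
    · change aeval a (rename Sum.inr (h j)) = 0
      rw [a1]
      exact pc_rel (prr G F h) (cmm F g) (Sum.inr j)
    · rw [mf_none, map_sub, a2, aeval_X]
      exact sub_self _
    · change aeval a (rename (fun x => Sum.inl ⟨i, x⟩) (G i l)) = 0
      rw [a2]
      exact pc_rel (prr G F h) (cmm F g) (Sum.inl ⟨i, l⟩)
  have ha' : IsUnit (aeval a (rename Sum.inr g)) := by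
    rw [a1]
    exact pc_unit _ _
  have hb : ∀ j, aeval b (prr G F h j) = 0 := by
    rintro (⟨i, l⟩ | j)
    · change aeval b (rename (Sigma.mk i) (G i l)) = 0
      rw [b1]
      exact pc_rel (mf h G F (crd m)) (rename Sum.inr g) (Sum.inr ⟨i, some l⟩)
    · change aeval b (cmm F (h j)) = 0
      rw [b2]
      exact pc_rel (mf h G F (crd m)) (rename Sum.inr g) (Sum.inl j)
  have hb' : IsUnit (aeval b (cmm F g)) := by
    rw [b2]
    exact pc_unit _ _
  refine iso_alg hP.toUni (pcEquiv _ ha ha' _ hb hb' ?_ ?_) hm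
  · rintro (y | i)
    · exact pcLift_pv _ _ _ hb hb' y
    · change pcLift _ _ _ hb hb' (pc _ _ (rename (Sigma.mk i) (F i))) = _
      rw [pcLift_pc, b1, pre_eq]
  · intro y
    exact pcLift_pv _ _ _ ha ha' (Sum.inl y)

end pre

section comp

variable {n : ℕ}

/-- a good class of small dimension -/
abbrev Dm (P : Sch k → Prop) (n : ℕ) : Prop :=
  ∀ (A : Type) [CommRing A] [Algebra k A] [Algebra.FiniteType k A],
    ringKrullDim A ≤ n → P (aff k A)

lemma dim_pc {m : ℕ} {ι : Type} (h : ι → MvPolynomial (Fin (m + 1)) k)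
    (g : MvPolynomial (Fin (m + 1)) k) (h0 : ∃ j, h j ≠ 0) : ringKrullDim (Pc h g) ≤ m := by
  have h1 : ringKrullDim (Pc h 1) ≤ m := by
    rw [← ringKrullDim_eq_of_ringEquiv (oneE h).toRingEquiv]
    refine dim_quot _ fun h2 => ?_
    obtain ⟨j, hj⟩ := h0
    rw [Ideal.span_eq_bot] at h2
    exact hj (h2 _ ⟨j, rfl⟩)
  have h2 := (dim_opn h 1 g).trans h1
  rwa [one_mul] at h2

variable {m : ℕ} {σ κ : Fin (m + 1) → Type} [∀ i, Finite (σ i)]
  {G : ∀ i, κ i → MvPolynomial (σ i) k} {F : ∀ i, MvPolynomial (σ i) k} {w : ∀ i, σ i → ℤ}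
  {N : Fin (m + 1) → ℕ}

/-- Preimages of proper locally closed subschemes of affine space. -/
lemma pre_all (hP : Cov P) (hn : Dm P n) (hm : m ≤ n) (hF : ∀ i, Sp P (G i) (F i) (w i) (N i))
    {ι : Type} (h : ι → MvPolynomial (Fin (m + 1)) k) (h0 : ∃ j, h j ≠ 0)
    (g : MvPolynomial (Fin (m + 1)) k) : P (aff k (Pc (prr G F h) (cmm F g))) :=
  pre_of G F h g hP (many hP hn (m + 1) σ κ inferInstance G F w N hF (Fin (m + 1)) ι inferInstance
    h g ((dim_pc h g h0).trans (by exact_mod_cast hm)) (crd (m + 1)))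

lemma pre_one (hP : Cov P) (hn : Dm P n) (hm : m ≤ n) (hF : ∀ i, Sp P (G i) (F i) (w i) (N i))
    {h : MvPolynomial (Fin (m + 1)) k} (h0 : h ≠ 0) :
    P (aff k (Pc (adj (allr G) (cmm F h)) 1)) := by
  refine same hP ?_ ?_ ?_ ?_ (pre_all hP hn hm hF (fun _ : Unit => h) ⟨(), h0⟩ 1)
  · rintro (j | ⟨⟩)
    · exact pc_rel (adj (allr G) (cmm F h)) 1 (some j)
    · exact pc_rel (adj (allr G) (cmm F h)) 1 none
  · rw [cmm_one, map_one]
    exact isUnit_one
  · rintro (_ | j)
    · exact pc_rel (prr G F fun _ : Unit => h) (cmm F 1) (Sum.inr ())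
    · exact pc_rel (prr G F fun _ : Unit => h) (cmm F 1) (Sum.inl j)
  · rw [map_one]
    exact isUnit_one

/-- Compositions. -/
theorem Sp.comp (hP : Cov P) (hn : Dm P n) (hm : m ≤ n) (hF : ∀ i, Sp P (G i) (F i) (w i) (N i))
    {h : MvPolynomial (Fin (m + 1)) k} (h0 : h ≠ 0) {L : ℕ} (hL : 0 < L)
    (hh : IsWeightedHomogeneous N h L) :
    Sp P (allr G) (cmm F h) (fun x => w x.1 x.2) L := by
  refine ⟨?_, ?_, hL, pre_one hP hn hm hF h0, ?_⟩
  · intro j
    obtain ⟨d, hd⟩ := (hF j.1).eqs j.2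
    exact ⟨d, homog_rename _ hd⟩
  · exact homog_aeval hh _ fun i => homog_rename _ (hF i).homog
  · have h1 : h - 1 ≠ 0 := by
      intro h2
      rw [sub_eq_zero] at h2
      have h3 : coeff 0 h ≠ 0 := by
        rw [h2, coeff_zero_one]
        exact one_ne_zero
      have h4 := hh h3
      rw [map_zero] at h4
      exact hL.ne h4
    have h2 := pre_one hP hn hm hF h1
    have h3 : cmm F (h - 1) = cmm F h - 1 := by
      rw [cmm, map_sub, map_one]
      rfl
    rwa [h3] at h2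

end comp

end Pool.Agent.Q200.SFD
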