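import Pool.Agent.Q200.SFD.Rel
import Pool.Agent.Z125.UN.Dim2

/-!
# Fibre products of several semi-invariant functions over a base of small dimension
-/

set_option autoImplicit false

open MvPolynomial TensorProduct Pool.Agent.Z125.UN Pool.Agent.Y116.UV Pool.Agent.Q200.SFC

namespace Pool.Agent.Q200.SFD

variable {k : Type} [Field k] {P : Sch k → Prop}

section dim

lemma dim_integral {R S : Type} [CommRing R] [CommRing S] [Algebra R S] [Algebra.IsIntegral R S] :
    ringKrullDim S ≤ ringKrullDim R :=
  Order.krullDim_le_of_strictMono (PrimeSpectrum.comap (algebraMap R S)) fun I J h => by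
    have h1 : I.asIdeal < J.asIdeal := h
    exact Ideal.IsIntegral.comap_lt_comap (R := R) h1

variable {τ κ : Type} (G : κ → MvPolynomial τ k) (u e : MvPolynomial τ k)

lemma dim_adj : ringKrullDim (Pc (adj G e) u) ≤ ringKrullDim (Pc G u) :=
  ringKrullDim_le_of_surjective
    ((cloE G u e : (Pc G u ⧸ Ideal.span {pc G u e}) →+* Pc (adj G e) u).comp (Ideal.Quotient.mk _))
    ((cloE G u e).surjective.comp Ideal.Quotient.mk_surjective)

lemma dim_opn : ringKrullDim (Pc G (u * e)) ≤ ringKrullDim (Pc G u) := by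
  rw [← ringKrullDim_eq_of_ringEquiv (opnE G u e).toRingEquiv]
  exact dim_away _

lemma dim_kr {N : ℕ} (hN : 0 < N) :
    ringKrullDim (Pc (kr G e N) (rename Sum.inl (u * e))) ≤ ringKrullDim (Pc G u) := by
  rw [← ringKrullDim_eq_of_ringEquiv (kE G (u * e) e N).toRingEquiv]
  have h1 : Module.Finite (Pc G (u * e))
      (AdjoinRoot (Polynomial.X ^ N - Polynomial.C (pc G (u * e) e))) :=
    (Polynomial.monic_X_pow_sub_C _ hN.ne').finite_adjoinRoot
  exact (dim_integral (R := Pc G (u * e))).trans (dim_opn G u e)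

end dim

section many

/-- the polynomial `p (x_i) - q (t)` -/
noncomputable def dif {τ : Type} {m : ℕ} {σ : Fin m → Type} (i : Fin m) (p : MvPolynomial (σ i) k)
    (q : MvPolynomial τ k) : MvPolynomial ((Σ i, σ i) ⊕ τ) k :=
  rename (fun x => Sum.inl ⟨i, x⟩) p - rename Sum.inr q

/-- the relations `H (t) = 0`, `G_i (x_i) = 0` and `F_i (x_i) = e_i (t)` -/
noncomputable def mf {ι τ : Type} {m : ℕ} {σ κ : Fin m → Type} (H : ι → MvPolynomial τ k)
    (G : ∀ i, κ i → MvPolynomial (σ i) k) (F : ∀ i, MvPolynomial (σ i) k)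
    (e : Fin m → MvPolynomial τ k) :
    ι ⊕ (Σ i, Option (κ i)) → MvPolynomial ((Σ i, σ i) ⊕ τ) k :=
  Sum.elim (fun j => rename Sum.inr (H j)) fun j => j.2.elim (dif j.1 (F j.1) (e j.1))
    fun l => rename (fun x => Sum.inl ⟨j.1, x⟩) (G j.1 l)

/-- the variables -/
def varE {m : ℕ} (σ : Fin (m + 1) → Type) (τ : Type) :
    σ 0 ⊕ ((Σ i : Fin m, σ i.succ) ⊕ τ) ≃ (Σ i, σ i) ⊕ τ where
  toFun := Sum.elim (fun x => Sum.inl ⟨0, x⟩) (Sum.elim (fun y => Sum.inl ⟨y.1.succ, y.2⟩) Sum.inr)
  invFun := Sum.elim (fun x => Fin.cases (motive := fun i => σ i →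
      σ 0 ⊕ ((Σ i : Fin m, σ i.succ) ⊕ τ)) (fun x => Sum.inl x) (fun j x => Sum.inr (Sum.inl ⟨j, x⟩))
      x.1 x.2) fun t => Sum.inr (Sum.inr t)
  left_inv := by rintro (x | ⟨j, x⟩ | t) <;> rfl
  right_inv := by
    rintro (⟨i, x⟩ | t)
    · revert x
      refine Fin.cases ?_ (fun i => ?_) i <;> intro x <;> rfl
    · rfl

variable {n : ℕ}

/-- Fibre products of the functions `F_i` on the schemes `G_i = 0` with functions `e_i` on a base of
small dimension. -/
theorem many (hP : Cov P) (hn : ∀ (A : Type) [CommRing A] [Algebra k A] [Algebra.FiniteType k A],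
    ringKrullDim A ≤ n → P (aff k A)) : ∀ (m : ℕ) (σ κ : Fin m → Type) (_ : ∀ i, Finite (σ i))
    (G : ∀ i, κ i → MvPolynomial (σ i) k) (F : ∀ i, MvPolynomial (σ i) k) (w : ∀ i, σ i → ℤ)
    (N : Fin m → ℕ) (_ : ∀ i, Sp P (G i) (F i) (w i) (N i)) (τ ι : Type) (_ : Finite τ)
    (H : ι → MvPolynomial τ k) (u : MvPolynomial τ k) (_ : ringKrullDim (Pc H u) ≤ n)
    (e : Fin m → MvPolynomial τ k), P (aff k (Pc (mf H G F e) (rename Sum.inr u)))
  | 0, σ, κ, _, G, F, w, N, _, τ, ι, _, H, u, hd, e => by
    refine perm hP (Equiv.emptySum (Σ i, σ i) τ).symm (G := H) (w := u) ?_ ?_ rfl (hn _ hd)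
    · exact fun j => ⟨Sum.inl j, rfl⟩
    · rintro (j | ⟨i, _⟩)
      · exact ⟨j, rfl⟩
      · exact i.elim0
  | m + 1, σ, κ, _, G, F, w, N, hF, τ, ι, _, H, u, hd, e => by
    have ih := many hP hn m (fun i => σ i.succ) (fun i => κ i.succ) (fun i => inferInstance)
      (fun i => G i.succ) (fun i => F i.succ) (fun i => w i.succ) (fun i => N i.succ)
      fun i => hF i.succ
    have h1 := ih τ (Option ι) inferInstance (adj H (e 0)) u ((dim_adj H u (e 0)).trans hd)
      fun i => e i.succ
    have h2 := ih (τ ⊕ Unit) (Option ι) inferInstance (kr H (e 0) (N 0)) (rename Sum.inl (u * e 0))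
      ((dim_kr H u (e 0) (hF 0).pos).trans hd) fun i => rename Sum.inl (e i.succ)
    have h3 : P (aff k (Pc (rr (G 0) (F 0) (mf H (fun i => G i.succ) (fun i => F i.succ)
        fun i => e i.succ) (rename Sum.inr (e 0))) (rename Sum.inr (rename Sum.inr u)))) := by
      refine rel_all hP (hF 0) ?_ ?_
      · refine same hP ?_ ?_ ?_ ?_ h1
        · rintro ((_ | j) | i)
          · exact pc_rel (adj (mf H (fun i => G i.succ) (fun i => F i.succ) fun i => e i.succ)
              (rename Sum.inr (e 0))) (rename Sum.inr u) none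
          · exact pc_rel (adj (mf H (fun i => G i.succ) (fun i => F i.succ) fun i => e i.succ)
              (rename Sum.inr (e 0))) (rename Sum.inr u) (some (Sum.inl j))
          · exact pc_rel (adj (mf H (fun i => G i.succ) (fun i => F i.succ) fun i => e i.succ)
              (rename Sum.inr (e 0))) (rename Sum.inr u) (some (Sum.inr i))
        · exact pc_unit _ _
        · rintro (_ | j | i)
          · exact pc_rel (mf (adj H (e 0)) (fun i => G i.succ) (fun i => F i.succ)
              fun i => e i.succ) (rename Sum.inr u) (Sum.inl none)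
          · exact pc_rel (mf (adj H (e 0)) (fun i => G i.succ) (fun i => F i.succ)
              fun i => e i.succ) (rename Sum.inr u) (Sum.inl (some j))
          · exact pc_rel (mf (adj H (e 0)) (fun i => G i.succ) (fun i => F i.succ)
              fun i => e i.succ) (rename Sum.inr u) (Sum.inr i)
        · exact pc_unit _ _
      · have r0 : rename (Equiv.sumAssoc (Σ i : Fin m, σ i.succ) τ Unit).symm
            (rename Sum.inr (X (Sum.inr ()) ^ N 0 - rename Sum.inl (e 0))) =
            X (Sum.inr ()) ^ N 0 - rename Sum.inl (rename Sum.inr (e 0)) := by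
          rw [rename_rename, map_sub, map_pow, rename_X, rename_rename, rename_rename]
          rfl
        have r1 : ∀ j, rename (Equiv.sumAssoc (Σ i : Fin m, σ i.succ) τ Unit).symm
            (rename Sum.inr (rename Sum.inl (H j))) = rename Sum.inl (rename Sum.inr (H j)) := by
          intro j
          rw [rename_rename, rename_rename, rename_rename]
          rfl
        have r2 : ∀ i : Fin m, rename (Equiv.sumAssoc (Σ i : Fin m, σ i.succ) τ Unit).symm
            (rename (fun x => Sum.inl ⟨i, x⟩) (F i.succ) -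
              rename Sum.inr (rename Sum.inl (e i.succ))) =
            rename Sum.inl (rename (fun x => Sum.inl ⟨i, x⟩) (F i.succ) -
              rename Sum.inr (e i.succ)) := by
          intro i
          rw [map_sub, map_sub, rename_rename, rename_rename, rename_rename, rename_rename,
            rename_rename]
          rfl
        have r3 : ∀ (i : Fin m) (l : κ i.succ),
            rename (Equiv.sumAssoc (Σ i : Fin m, σ i.succ) τ Unit).symm
            (rename (fun x => Sum.inl ⟨i, x⟩) (G i.succ l)) =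
            rename Sum.inl (rename (fun x => Sum.inl ⟨i, x⟩) (G i.succ l)) := by
          intro i l
          rw [rename_rename, rename_rename]
          rfl
        refine perm hP (Equiv.sumAssoc (Σ i : Fin m, σ i.succ) τ Unit).symm ?_ ?_ ?_ h2
        · rintro ((_ | j) | ⟨i, _ | l⟩)
          · exact ⟨none, r0⟩
          · exact ⟨some (Sum.inl j), r1 j⟩
          · exact ⟨some (Sum.inr ⟨i, none⟩), r2 i⟩
          · exact ⟨some (Sum.inr ⟨i, some l⟩), r3 i l⟩
        · rintro (_ | j | ⟨i, _ | l⟩)
          · exact ⟨Sum.inl none, r0⟩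
          · exact ⟨Sum.inl (some j), r1 j⟩
          · exact ⟨Sum.inr ⟨i, none⟩, r2 i⟩
          · exact ⟨Sum.inr ⟨i, some l⟩, r3 i l⟩
        · rw [← map_mul, rename_rename, rename_rename, rename_rename]
          rfl
    have s0 : rename (varE σ τ) (rename Sum.inl (F 0) - rename Sum.inr (rename Sum.inr (e 0))) =
        rename (fun x => Sum.inl ⟨0, x⟩) (F 0) - rename Sum.inr (e 0) := by
      rw [map_sub, rename_rename, rename_rename, rename_rename]
      rfl
    have s0' : ∀ l, rename (varE σ τ) (rename Sum.inl (G 0 l)) =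
        rename (fun x => Sum.inl ⟨0, x⟩) (G 0 l) := by
      intro l
      rw [rename_rename]
      rfl
    have s1 : ∀ j, rename (varE σ τ) (rename Sum.inr (rename Sum.inr (H j))) =
        rename Sum.inr (H j) := by
      intro j
      rw [rename_rename, rename_rename]
      rfl
    have s2 : ∀ i : Fin m, rename (varE σ τ) (rename Sum.inr
        (rename (fun x => Sum.inl ⟨i, x⟩) (F i.succ) - rename Sum.inr (e i.succ))) =
        rename (fun x => Sum.inl ⟨i.succ, x⟩) (F i.succ) - rename Sum.inr (e i.succ) := by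
      intro i
      rw [map_sub, map_sub, rename_rename, rename_rename, rename_rename, rename_rename]
      rfl
    have s3 : ∀ (i : Fin m) (l : κ i.succ), rename (varE σ τ) (rename Sum.inr
        (rename (fun x => Sum.inl ⟨i, x⟩) (G i.succ l))) =
        rename (fun x => Sum.inl ⟨i.succ, x⟩) (G i.succ l) := by
      intro i l
      rw [rename_rename, rename_rename]
      rfl
    refine perm hP (varE σ τ) ?_ ?_ ?_ h3
    · rintro (l | _ | j | ⟨i, _ | l⟩)
      · exact ⟨Sum.inr ⟨0, some l⟩, s0' l⟩
      · exact ⟨Sum.inr ⟨0, none⟩, s0⟩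
      · exact ⟨Sum.inl j, s1 j⟩
      · exact ⟨Sum.inr ⟨i.succ, none⟩, s2 i⟩
      · exact ⟨Sum.inr ⟨i.succ, some l⟩, s3 i l⟩
    · rintro (j | ⟨i, l⟩)
      · exact ⟨some (Sum.inl j) |> Sum.inr, s1 j⟩
      · revert l
        refine Fin.cases ?_ (fun i => ?_) i
        · rintro (_ | l)
          · exact ⟨Sum.inr none, s0⟩
          · exact ⟨Sum.inl l, s0' l⟩
        · rintro (_ | l)
          · exact ⟨Sum.inr (some (Sum.inr ⟨i, none⟩)), s2 i⟩
          · exact ⟨Sum.inr (some (Sum.inr ⟨i, some l⟩)), s3 i l⟩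
    · rw [rename_rename, rename_rename]
      rfl

end many

end Pool.Agent.Q200.SFD
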