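import Pool.Agent.Q200.SFD.Elim

/-!
# Members of the class and sums
-/

set_option autoImplicit false

open MvPolynomial TensorProduct Pool.Agent.Z125.UN Pool.Agent.Y116.UV Pool.Agent.Q200.SFC

namespace Pool.Agent.Q200.SFD

variable {k : Type} [Field k] {P : Sch k → Prop}

section open_part

variable {σ κ : Type} (G : κ → MvPolynomial σ k) (F : MvPolynomial σ k) (N : ℕ)

/-- the covering of `F ≠ 0` -/
abbrev E4 : Type := Pc (kr G F N) (rename Sum.inl (1 * F))

/-- the product of `F = 1` and the multiplicative group -/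
abbrev T4 : Type := Pc (rl (adj G (F - 1)) Unit) (rename Sum.inl 1 * xs)

/-- coordinate -/
noncomputable def qx (i : σ) : E4 G F N := pv _ _ (Sum.inl i)

/-- coordinate -/
noncomputable def qs : E4 G F N := pv _ _ (Sum.inr ())

/-- coordinate -/
noncomputable def ox (i : σ) : T4 G F := pv _ _ (Sum.inl i)

/-- coordinate -/
noncomputable def os : T4 G F := pv _ _ (Sum.inr ())

lemma q_kum : qs G F N ^ N = aeval (qx G F N) F := by
  have h1 := pc_rel (kr G F N) (rename Sum.inl (1 * F)) none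
  change pc _ _ (X (Sum.inr ()) ^ N - rename Sum.inl F) = 0 at h1
  rw [← pc_aeval, map_sub, sub_eq_zero, map_pow, aeval_X, aeval_rename] at h1
  exact h1

lemma q_eq (j : κ) : aeval (qx G F N) (G j) = 0 := by
  have h1 := pc_rel (kr G F N) (rename Sum.inl (1 * F)) (some j)
  change pc _ _ (rename Sum.inl (G j)) = 0 at h1
  rw [← pc_aeval, aeval_rename] at h1
  exact h1

lemma q_unit : IsUnit (aeval (qx G F N) F) := by
  have h1 := pc_unit (kr G F N) (rename Sum.inl (1 * F))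
  rw [← pc_aeval, aeval_rename] at h1
  have h2 : aeval (qx G F N) (1 * F) = aeval (qx G F N) F := congrArg _ (one_mul F)
  exact h2 ▸ h1

lemma o_one : aeval (ox G F) F = 1 := by
  have h1 := pc_rel (rl (adj G (F - 1)) Unit) (rename Sum.inl 1 * xs) none
  change pc _ _ (rename Sum.inl (F - 1)) = 0 at h1
  rw [← pc_aeval, aeval_rename, map_sub, sub_eq_zero] at h1
  have h2 : aeval (ox G F) (1 : MvPolynomial σ k) = 1 := map_one _
  exact Eq.trans h1 h2

lemma o_eq (j : κ) : aeval (ox G F) (G j) = 0 := by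
  have h1 := pc_rel (rl (adj G (F - 1)) Unit) (rename Sum.inl 1 * xs) (some j)
  change pc _ _ (rename Sum.inl (G j)) = 0 at h1
  rw [← pc_aeval, aeval_rename] at h1
  exact h1

lemma o_unit : ∃ η : (T4 G F)ˣ, (η : T4 G F) = os G F :=
  pc_unit_right (rl (adj G (F - 1)) Unit) (rename Sum.inl 1) xs

variable {N}

lemma qs_unit (hN : 0 < N) : ∃ ζ : (E4 G F N)ˣ, (ζ : E4 G F N) = qs G F N := by
  have h1 := q_unit G F N
  rw [← q_kum] at h1
  exact (isUnit_pow_iff hN.ne').1 h1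

variable {F G} {w : σ → ℤ}

/-- The covering is a product. -/
lemma eqv4 (hG : ∀ j, ∃ d : ℤ, IsWeightedHomogeneous w (G j) d)
    (hF : IsWeightedHomogeneous w F (N : ℤ)) (hN : 0 < N) :
    Nonempty (T4 G F ≃ₐ[k] E4 G F N) := by
  obtain ⟨ζ, hζ⟩ := qs_unit G F hN
  obtain ⟨η, hη⟩ := o_unit G F
  let a : σ ⊕ Unit → E4 G F N :=
    Sum.elim (fun i => ((ζ ^ (-w i) : (E4 G F N)ˣ) : E4 G F N) * qx G F N i) fun _ => qs G F N
  let b : σ ⊕ Unit → T4 G F :=
    Sum.elim (fun i => ((η ^ w i : (T4 G F)ˣ) : T4 G F) * ox G F i) fun _ => os G F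
  have haF : aeval (fun i => ((ζ ^ (-w i) : (E4 G F N)ˣ) : E4 G F N) * qx G F N i) F = 1 := by
    rw [aeval_zscale (homog_neg hF), ← q_kum, ← hζ, zpow_neg, zpow_natCast,
      ← Units.val_pow_eq_pow_val, Units.inv_mul]
  have haG : ∀ j, aeval (fun i => ((ζ ^ (-w i) : (E4 G F N)ˣ) : E4 G F N) * qx G F N i) (G j) = 0 := by
    intro j
    obtain ⟨d, hd⟩ := hG j
    rw [aeval_zscale (homog_neg hd), q_eq, mul_zero]
  have hbF : aeval (fun i => ((η ^ w i : (T4 G F)ˣ) : T4 G F) * ox G F i) F = os G F ^ N := by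
    rw [aeval_zscale hF, o_one, mul_one, ← hη, zpow_natCast, Units.val_pow_eq_pow_val]
  have hbG : ∀ j, aeval (fun i => ((η ^ w i : (T4 G F)ˣ) : T4 G F) * ox G F i) (G j) = 0 := by
    intro j
    obtain ⟨d, hd⟩ := hG j
    rw [aeval_zscale hd, o_eq, mul_zero]
  have ha : ∀ j, aeval a (rl (adj G (F - 1)) Unit j) = 0 := by
    rintro (_ | j)
    · change aeval a (rename Sum.inl (F - 1)) = 0
      rw [aeval_rename, map_sub, map_one]
      exact sub_eq_zero.2 haF
    · change aeval a (rename Sum.inl (G j)) = 0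
      rw [aeval_rename]
      exact haG j
  have ha' : IsUnit (aeval a
      (rename Sum.inl (1 : MvPolynomial σ k) * xs : MvPolynomial (σ ⊕ Unit) k)) := by
    have h1 : (rename Sum.inl (1 : MvPolynomial σ k) * xs : MvPolynomial (σ ⊕ Unit) k) =
        X (Sum.inr ()) := by
      rw [map_one, one_mul]
      rfl
    rw [h1, aeval_X]
    change IsUnit (qs G F N)
    rw [← hζ]
    exact ζ.isUnit
  have hb : ∀ j, aeval b (kr G F N j) = 0 := by
    rintro (_ | j)
    · change aeval b (X (Sum.inr ()) ^ N - rename Sum.inl F) = 0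
      rw [map_sub, map_pow, aeval_X, aeval_rename]
      exact sub_eq_zero.2 hbF.symm
    · change aeval b (rename Sum.inl (G j)) = 0
      rw [aeval_rename]
      exact hbG j
  have hb' : IsUnit (aeval b (rename Sum.inl (1 * F) : MvPolynomial (σ ⊕ Unit) k)) := by
    rw [one_mul, aeval_rename]
    change IsUnit (aeval (fun i => ((η ^ w i : (T4 G F)ˣ) : T4 G F) * ox G F i) F)
    rw [hbF, ← hη]
    exact η.isUnit.pow N
  have l1 : ∀ s, pcLift _ _ _ hb hb' (pv _ _ s) = b s := pcLift_pv _ _ _ hb hb'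
  have l2 : ∀ s, pcLift _ _ _ ha ha' (pv _ _ s) = a s := pcLift_pv _ _ _ ha ha'
  have m1 : pcLift _ _ _ hb hb' ζ = η := by
    rw [hζ, hη]
    exact l1 (Sum.inr ())
  have m2 : pcLift _ _ _ ha ha' η = ζ := by
    rw [hζ, hη]
    exact l2 (Sum.inr ())
  refine ⟨pcEquiv _ ha ha' _ hb hb' ?_ ?_⟩
  · rintro (i | _)
    · change pcLift _ _ _ hb hb' (((ζ ^ (-w i) : (E4 G F N)ˣ) : E4 G F N) * qx G F N i) = ox G F i
      have h3 := l1 (Sum.inl i)
      change pcLift _ _ _ hb hb' (qx G F N i) = ((η ^ w i : (T4 G F)ˣ) : T4 G F) * ox G F i at h3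
      rw [map_mul, map_zpow_unit _ ζ η m1, h3, zpow_cancel]
    · exact l1 (Sum.inr ())
  · rintro (i | _)
    · change pcLift _ _ _ ha ha' (((η ^ w i : (T4 G F)ˣ) : T4 G F) * ox G F i) = qx G F N i
      have h3 := l2 (Sum.inl i)
      change pcLift _ _ _ ha ha' (ox G F i) = ((ζ ^ (-w i) : (E4 G F N)ˣ) : E4 G F N) * qx G F N i
        at h3
      rw [map_mul, map_zpow_unit _ η ζ m2, h3, zpow_cancel']
    · exact l2 (Sum.inr ())

end open_part

section mem

variable {σ κ : Type} [Finite σ] {G : κ → MvPolynomial σ k} {F : MvPolynomial σ k} {w : σ → ℤ}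
  {N : ℕ}

/-- the open part -/
lemma open_part (hP : Cov P) (hG : ∀ j, ∃ d : ℤ, IsWeightedHomogeneous w (G j) d)
    (hF : IsWeightedHomogeneous w F (N : ℤ)) (hN : 0 < N)
    (h : P (aff k (Pc (adj G (F - 1)) 1))) : P (aff k (Pc G (1 * F))) := by
  obtain ⟨E⟩ := eqv4 hG hF hN
  exact kum hP F hN (iso_alg hP.toUni E (pc_gm hP.toBnd h))

/-- It is sufficient that the total space and the level `1` are good. -/
lemma Sp.of_total (hP : Cov P) (hG : ∀ j, ∃ d : ℤ, IsWeightedHomogeneous w (G j) d)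
    (hF : IsWeightedHomogeneous w F (N : ℤ)) (hN : 0 < N) (h0 : P (aff k (Pc G 1)))
    (h : P (aff k (Pc (adj G (F - 1)) 1))) : Sp P G F w N :=
  ⟨hG, hF, hN, pc_closed hP.toBnd h0 (open_part hP hG hF hN h), h⟩

/-- the total space -/
lemma Sp.total (hP : Cov P) (h : Sp P G F w N) : P (aff k (Pc G 1)) :=
  pc_total hP.toBnd h.zero (open_part hP h.eqs h.homog h.pos h.level)

omit [Finite σ] in
lemma Sp.weights (h : Sp P G F w N) {m : ℕ} (hm : 0 < m) :
    Sp P G F (fun i => (m : ℤ) * w i) (m * N) := by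
  refine ⟨fun j => ?_, ?_, Nat.mul_pos hm h.pos, h.zero, h.level⟩
  · obtain ⟨d, hd⟩ := h.eqs j
    exact ⟨m * d, homog_scale _ hd⟩
  · rw [Nat.cast_mul]
    exact homog_scale _ h.homog

omit [Finite σ] in
lemma sub_one_ne {w' : σ → ℤ} {N' : ℕ} {F : MvPolynomial σ k}
    (h : IsWeightedHomogeneous w' F (N' : ℤ)) (hN : 0 < N') : F - 1 ≠ 0 := by
  intro h2
  rw [sub_eq_zero] at h2
  have h3 : coeff 0 F ≠ 0 := by
    rw [h2, coeff_zero_one]
    exact one_ne_zero
  have h4 := h h3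
  rw [map_zero] at h4
  exact hN.ne (by exact_mod_cast h4)

/-- affine spaces of dimension at most `n + 1` -/
lemma sp_small (hP : Cov P) {n m : ℕ} (hn : Dm P n) (hm : m ≤ n)
    {F : MvPolynomial (Fin (m + 1)) k} {w : Fin (m + 1) → ℤ} {N : ℕ}
    (h : IsWeightedHomogeneous w F (N : ℤ)) (hN : 0 < N) :
    Sp P (Empty.elim : Empty → MvPolynomial (Fin (m + 1)) k) F w N := by
  refine Sp.of_total hP (by rintro ⟨⟩) h hN (spc hP _) (hn _ ?_)
  exact (dim_pc _ _ ⟨none, sub_one_ne h hN⟩).trans (by exact_mod_cast hm)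

/-- polynomials on affine spaces -/
lemma sp_level (hP : Cov P) {w : σ → ℤ} {F : MvPolynomial σ k} (h : IsWeightedHomogeneous w F (N : ℤ))
    (hN : 0 < N) (h1 : P (aff k (MvPolynomial σ k ⧸ Ideal.span {F - 1}))) :
    Sp P (Empty.elim : Empty → MvPolynomial σ k) F w N := by
  have := Fintype.ofFinite σ
  refine Sp.of_total hP (by rintro ⟨⟩) h hN (spc hP _) ?_
  have h2 : Ideal.span {F - 1} =
      Ideal.span (Set.range (adj (Empty.elim : Empty → MvPolynomial σ k) (F - 1))) := by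
    congr 1
    ext p
    constructor
    · rintro rfl
      exact ⟨none, rfl⟩
    · rintro ⟨_ | ⟨⟨⟩⟩, rfl⟩
      rfl
  exact iso_alg hP.toUni ((Ideal.quotientEquivAlgOfEq k h2).trans (oneE _)) h1

lemma homog_tri {α β γ : Type} [Fintype α] [Fintype β] [Fintype γ] (T : α → β → γ → k) :
    IsWeightedHomogeneous (fun _ => (1 : ℤ)) (tri T) ((3 : ℕ) : ℤ) := by
  refine IsWeightedHomogeneous.sum _ _ _ fun i _ => IsWeightedHomogeneous.sum _ _ _ fun j _ =>
    IsWeightedHomogeneous.sum _ _ _ fun l _ => ?_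
  have h := (((isWeightedHomogeneous_C (fun _ : α ⊕ (β ⊕ γ) => (1 : ℤ)) (T i j l)).mul
    (isWeightedHomogeneous_X k (fun _ : α ⊕ (β ⊕ γ) => (1 : ℤ)) (Sum.inl i))).mul
    (isWeightedHomogeneous_X k (fun _ : α ⊕ (β ⊕ γ) => (1 : ℤ)) (Sum.inr (Sum.inl j)))).mul
    (isWeightedHomogeneous_X k (fun _ : α ⊕ (β ⊕ γ) => (1 : ℤ)) (Sum.inr (Sum.inr l)))
  exact h

/-- trilinear forms -/
lemma sp_tri (hP : Cov P) {a b c : ℕ} (T : Fin a → Fin b → Fin c → k) (h : P (hypS T)) :
    Sp P (Empty.elim : Empty → MvPolynomial (Fin a ⊕ (Fin b ⊕ Fin c)) k) (tri T) (fun _ => 1) 3 :=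
  sp_level hP (homog_tri T) (Nat.succ_pos 2) h

end mem

section ren

variable {V V' K K' : Type} [Finite V]

/-- renaming -/
lemma Sp.ren (hP : Cov P) {G : K → MvPolynomial V k} {F : MvPolynomial V k} {w : V → ℤ} {N : ℕ}
    (h : Sp P G F w N) (ε : V ≃ V') {G' : K' → MvPolynomial V' k}
    (h1 : ∀ j, ∃ j', rename ε (G j) = G' j') (h2 : ∀ j', ∃ j, rename ε (G j) = G' j')
    {F' : MvPolynomial V' k} (hF : rename ε F = F') : Sp P G' F' (fun v => w (ε.symm v)) N := by
  have hw : (fun i => w (ε.symm (ε i))) = w := by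
    funext i
    rw [Equiv.symm_apply_apply]
  subst hF
  refine ⟨fun j' => ?_, ?_, h.pos, ?_, ?_⟩
  · obtain ⟨j, hj⟩ := h2 j'
    obtain ⟨d, hd⟩ := h.eqs j
    refine ⟨d, ?_⟩
    rw [← hj]
    exact homog_rename ε (by rw [hw]; exact hd)
  · exact homog_rename ε (by rw [hw]; exact h.homog)
  · refine perm hP ε ?_ ?_ (map_one _) h.zero
    · rintro (_ | j)
      · exact ⟨none, rfl⟩
      · obtain ⟨j', hj⟩ := h1 j
        exact ⟨some j', hj⟩
    · rintro (_ | j')
      · exact ⟨none, rfl⟩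
      · obtain ⟨j, hj⟩ := h2 j'
        exact ⟨some j, hj⟩
  · have h3 : rename ε (F - 1) = rename ε F - 1 := by rw [map_sub, map_one]
    refine perm hP ε ?_ ?_ (map_one _) h.level
    · rintro (_ | j)
      · exact ⟨none, h3⟩
      · obtain ⟨j', hj⟩ := h1 j
        exact ⟨some j', hj⟩
    · rintro (_ | j')
      · exact ⟨none, h3⟩
      · obtain ⟨j, hj⟩ := h2 j'
        exact ⟨some j, hj⟩

end ren

end Pool.Agent.Q200.SFD
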