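import Pool.Agent.Q200.SFD.Base

/-!
# The levels of a semi-invariant function over a base
-/

set_option autoImplicit false

open MvPolynomial TensorProduct Pool.Agent.Z125.UN Pool.Agent.Y116.UV Pool.Agent.Q200.SFC

namespace Pool.Agent.Q200.SFD

variable {k : Type} [Field k] {P : Sch k → Prop}

section rel

variable {σ τ κ ι : Type} (G : κ → MvPolynomial σ k) (F : MvPolynomial σ k)
  (H : ι → MvPolynomial τ k) (u e : MvPolynomial τ k) (N : ℕ)

/-- the relations `G (x) = 0`, `H (t) = 0`, `F (x) = e (t)` -/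
noncomputable def rr : κ ⊕ Option ι → MvPolynomial (σ ⊕ τ) k :=
  Sum.elim (fun j => rename Sum.inl (G j))
    (adj (fun j => rename Sum.inr (H j)) (rename Sum.inl F - rename Sum.inr e))

/-- the covering of the open part `e ≠ 0` -/
abbrev E3 : Type := Pc (kr (rr G F H e) (rename Sum.inr e) N)
  (rename Sum.inl (rename Sum.inr (u * e)))

/-- the product -/
abbrev T3 : Type := Pc (two (adj G (F - 1)) (kr H e N))
  (bw (1 : MvPolynomial σ k) (rename Sum.inl (u * e)))

/-- coordinate -/
noncomputable def gx (i : σ) : E3 G F H u e N := pv _ _ (Sum.inl (Sum.inl i))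

/-- coordinate -/
noncomputable def gy (i : τ) : E3 G F H u e N := pv _ _ (Sum.inl (Sum.inr i))

/-- coordinate -/
noncomputable def gs : E3 G F H u e N := pv _ _ (Sum.inr ())

/-- coordinate -/
noncomputable def px (i : σ) : T3 G F H u e N := pv _ _ (Sum.inl i)

/-- coordinate -/
noncomputable def py (i : τ) : T3 G F H u e N := pv _ _ (Sum.inr (Sum.inl i))

/-- coordinate -/
noncomputable def ps : T3 G F H u e N := pv _ _ (Sum.inr (Sum.inr ()))

lemma g_kum : gs G F H u e N ^ N = aeval (gy G F H u e N) e := by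
  have h1 := pc_rel (kr (rr G F H e) (rename Sum.inr e) N)
    (rename Sum.inl (rename Sum.inr (u * e))) none
  change pc _ _ (X (Sum.inr ()) ^ N - rename Sum.inl (rename Sum.inr e)) = 0 at h1
  rw [← pc_aeval, map_sub, sub_eq_zero, map_pow, aeval_X, aeval_rename, aeval_rename] at h1
  exact h1

lemma g_lvl : aeval (gx G F H u e N) F = aeval (gy G F H u e N) e := by
  have h1 := pc_rel (kr (rr G F H e) (rename Sum.inr e) N)
    (rename Sum.inl (rename Sum.inr (u * e))) (some (Sum.inr none))
  change pc _ _ (rename Sum.inl (rename Sum.inl F - rename Sum.inr e)) = 0 at h1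
  rw [← pc_aeval, aeval_rename, map_sub, sub_eq_zero, aeval_rename, aeval_rename] at h1
  exact h1

lemma g_rel (j : ι) : aeval (gy G F H u e N) (H j) = 0 := by
  have h1 := pc_rel (kr (rr G F H e) (rename Sum.inr e) N)
    (rename Sum.inl (rename Sum.inr (u * e))) (some (Sum.inr (some j)))
  change pc _ _ (rename Sum.inl (rename Sum.inr (H j))) = 0 at h1
  rw [← pc_aeval, aeval_rename, aeval_rename] at h1
  exact h1

lemma g_eq (j : κ) : aeval (gx G F H u e N) (G j) = 0 := by
  have h1 := pc_rel (kr (rr G F H e) (rename Sum.inr e) N)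
    (rename Sum.inl (rename Sum.inr (u * e))) (some (Sum.inl j))
  change pc _ _ (rename Sum.inl (rename Sum.inl (G j))) = 0 at h1
  rw [← pc_aeval, aeval_rename, aeval_rename] at h1
  exact h1

lemma g_unit : IsUnit (aeval (gy G F H u e N) (u * e)) := by
  have h1 := pc_unit (kr (rr G F H e) (rename Sum.inr e) N)
    (rename Sum.inl (rename Sum.inr (u * e)))
  rw [← pc_aeval, aeval_rename, aeval_rename] at h1
  exact h1

lemma p_one : aeval (px G F H u e N) F = 1 := by
  have h1 := pc_rel (two (adj G (F - 1)) (kr H e N))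
    (bw (1 : MvPolynomial σ k) (rename Sum.inl (u * e))) (Sum.inl none)
  change pc _ _ (rename Sum.inl (F - 1)) = 0 at h1
  rw [← pc_aeval, aeval_rename, map_sub, map_one, sub_eq_zero] at h1
  exact h1

lemma p_eq (j : κ) : aeval (px G F H u e N) (G j) = 0 := by
  have h1 := pc_rel (two (adj G (F - 1)) (kr H e N))
    (bw (1 : MvPolynomial σ k) (rename Sum.inl (u * e))) (Sum.inl (some j))
  change pc _ _ (rename Sum.inl (G j)) = 0 at h1
  rw [← pc_aeval, aeval_rename] at h1
  exact h1

lemma p_kum : ps G F H u e N ^ N = aeval (py G F H u e N) e := by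
  have h1 := pc_rel (two (adj G (F - 1)) (kr H e N))
    (bw (1 : MvPolynomial σ k) (rename Sum.inl (u * e))) (Sum.inr none)
  change pc _ _ (rename Sum.inr (X (Sum.inr ()) ^ N - rename Sum.inl e)) = 0 at h1
  rw [← pc_aeval, aeval_rename, map_sub, sub_eq_zero, map_pow, aeval_X, aeval_rename] at h1
  exact h1

lemma p_rel (j : ι) : aeval (py G F H u e N) (H j) = 0 := by
  have h1 := pc_rel (two (adj G (F - 1)) (kr H e N))
    (bw (1 : MvPolynomial σ k) (rename Sum.inl (u * e))) (Sum.inr (some j))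
  change pc _ _ (rename Sum.inr (rename Sum.inl (H j))) = 0 at h1
  rw [← pc_aeval, aeval_rename, aeval_rename] at h1
  exact h1

lemma p_unit : IsUnit (aeval (py G F H u e N) (u * e)) := by
  have h1 := pc_unit_right (two (adj G (F - 1)) (kr H e N)) (rename Sum.inl (1 : MvPolynomial σ k))
    (rename Sum.inr (rename Sum.inl (u * e)))
  rw [← pc_aeval, aeval_rename, aeval_rename] at h1
  exact h1

variable {N}

lemma gs_unit (hN : 0 < N) : ∃ ζ : (E3 G F H u e N)ˣ, (ζ : E3 G F H u e N) = gs G F H u e N := by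
  have h1 := g_unit G F H u e N
  have h2 : aeval (gy G F H u e N) (u * e) = aeval (gy G F H u e N) u * aeval (gy G F H u e N) e :=
    map_mul _ _ _
  rw [h2, ← g_kum] at h1
  exact (isUnit_pow_iff hN.ne').1 (isUnit_of_mul_isUnit_right h1)

lemma ps_unit (hN : 0 < N) : ∃ ζ : (T3 G F H u e N)ˣ, (ζ : T3 G F H u e N) = ps G F H u e N := by
  have h1 := p_unit G F H u e N
  have h2 : aeval (py G F H u e N) (u * e) = aeval (py G F H u e N) u * aeval (py G F H u e N) e :=
    map_mul _ _ _
  rw [h2, ← p_kum] at h1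
  exact (isUnit_pow_iff hN.ne').1 (isUnit_of_mul_isUnit_right h1)

lemma map_zpow_unit {A B : Type} [CommRing A] [CommRing B] [Algebra k A] [Algebra k B]
    (f : A →ₐ[k] B) (ζ : Aˣ) (η : Bˣ) (h : f ζ = η) (n : ℤ) :
    f ((ζ ^ n : Aˣ) : A) = ((η ^ n : Bˣ) : B) := by
  have h1 : Units.map (f : A →* B) ζ = η := Units.ext h
  rw [← h1, ← map_zpow]
  rfl

lemma zpow_cancel {A : Type} [CommRing A] (ζ : Aˣ) (n : ℤ) (a : A) :
    ((ζ ^ (-n) : Aˣ) : A) * (((ζ ^ n : Aˣ) : A) * a) = a := by
  rw [← mul_assoc, ← Units.val_mul, ← zpow_add, neg_add_cancel, zpow_zero, Units.val_one, one_mul]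

lemma zpow_cancel' {A : Type} [CommRing A] (ζ : Aˣ) (n : ℤ) (a : A) :
    ((ζ ^ n : Aˣ) : A) * (((ζ ^ (-n) : Aˣ) : A) * a) = a := by
  rw [← mul_assoc, ← Units.val_mul, ← zpow_add, add_neg_cancel, zpow_zero, Units.val_one, one_mul]

lemma homog_neg {F : MvPolynomial σ k} {w : σ → ℤ} {N : ℤ} (hF : IsWeightedHomogeneous w F N) :
    IsWeightedHomogeneous (fun i => -w i) F (-N) := by
  intro d hd
  rw [← hF hd, Finsupp.weight_apply, Finsupp.weight_apply, Finsupp.sum, Finsupp.sum,
    ← Finset.sum_neg_distrib]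
  exact Finset.sum_congr rfl fun i _ => smul_neg _ _

variable {F G} {w : σ → ℤ}

/-- The covering is a product. -/
lemma eqv3 (hG : ∀ j, ∃ d : ℤ, IsWeightedHomogeneous w (G j) d)
    (hF : IsWeightedHomogeneous w F (N : ℤ)) (hN : 0 < N) :
    Nonempty (T3 G F H u e N ≃ₐ[k] E3 G F H u e N) := by
  obtain ⟨ζ, hζ⟩ := gs_unit G F H u e hN
  obtain ⟨η, hη⟩ := ps_unit G F H u e hN
  let a : σ ⊕ (τ ⊕ Unit) → E3 G F H u e N :=
    Sum.elim (fun i => ((ζ ^ (-w i) : (E3 G F H u e N)ˣ) : E3 G F H u e N) * gx G F H u e N i)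
      (Sum.elim (gy G F H u e N) fun _ => gs G F H u e N)
  let b : (σ ⊕ τ) ⊕ Unit → T3 G F H u e N :=
    Sum.elim (Sum.elim (fun i => ((η ^ w i : (T3 G F H u e N)ˣ) : T3 G F H u e N) *
      px G F H u e N i) (py G F H u e N)) fun _ => ps G F H u e N
  have haF : aeval (fun i => ((ζ ^ (-w i) : (E3 G F H u e N)ˣ) : E3 G F H u e N) *
      gx G F H u e N i) F = 1 := by
    rw [aeval_zscale (homog_neg hF), g_lvl, ← g_kum, ← hζ, zpow_neg, zpow_natCast,
      ← Units.val_pow_eq_pow_val, Units.inv_mul]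
  have haG : ∀ j, aeval (fun i => ((ζ ^ (-w i) : (E3 G F H u e N)ˣ) : E3 G F H u e N) *
      gx G F H u e N i) (G j) = 0 := by
    intro j
    obtain ⟨d, hd⟩ := hG j
    rw [aeval_zscale (homog_neg hd), g_eq, mul_zero]
  have hbF : aeval (fun i => ((η ^ w i : (T3 G F H u e N)ˣ) : T3 G F H u e N) *
      px G F H u e N i) F = ps G F H u e N ^ N := by
    rw [aeval_zscale hF, p_one, mul_one, ← hη, zpow_natCast, Units.val_pow_eq_pow_val]
  have hbG : ∀ j, aeval (fun i => ((η ^ w i : (T3 G F H u e N)ˣ) : T3 G F H u e N) *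
      px G F H u e N i) (G j) = 0 := by
    intro j
    obtain ⟨d, hd⟩ := hG j
    rw [aeval_zscale hd, p_eq, mul_zero]
  have ha : ∀ j, aeval a (two (adj G (F - 1)) (kr H e N) j) = 0 := by
    rintro ((_ | j) | _ | j)
    · change aeval a (rename Sum.inl (F - 1)) = 0
      rw [aeval_rename, map_sub, map_one]
      exact sub_eq_zero.2 haF
    · change aeval a (rename Sum.inl (G j)) = 0
      rw [aeval_rename]
      exact haG j
    · change aeval a (rename Sum.inr (X (Sum.inr ()) ^ N - rename Sum.inl e)) = 0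
      rw [aeval_rename, map_sub, map_pow, aeval_X, aeval_rename]
      exact sub_eq_zero.2 (g_kum G F H u e N)
    · change aeval a (rename Sum.inr (rename Sum.inl (H j))) = 0
      rw [aeval_rename, aeval_rename]
      exact g_rel G F H u e N j
  have ha' : IsUnit (aeval a (bw (1 : MvPolynomial σ k) (rename Sum.inl (u * e)))) := by
    rw [aeval_bw, map_one, one_mul, aeval_rename]
    exact g_unit G F H u e N
  have hb : ∀ j, aeval b (kr (rr G F H e) (rename Sum.inr e) N j) = 0 := by
    rintro (_ | j | _ | j)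
    · change aeval b (X (Sum.inr ()) ^ N - rename Sum.inl (rename Sum.inr e)) = 0
      rw [map_sub, map_pow, aeval_X, aeval_rename, aeval_rename]
      exact sub_eq_zero.2 (p_kum G F H u e N)
    · change aeval b (rename Sum.inl (rename Sum.inl (G j))) = 0
      rw [aeval_rename, aeval_rename]
      exact hbG j
    · change aeval b (rename Sum.inl (rename Sum.inl F - rename Sum.inr e)) = 0
      rw [aeval_rename, map_sub, aeval_rename, aeval_rename]
      exact sub_eq_zero.2 (hbF.trans (p_kum G F H u e N))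
    · change aeval b (rename Sum.inl (rename Sum.inr (H j))) = 0
      rw [aeval_rename, aeval_rename]
      exact p_rel G F H u e N j
  have hb' : IsUnit (aeval b
      (rename Sum.inl (rename Sum.inr (u * e)) : MvPolynomial ((σ ⊕ τ) ⊕ Unit) k)) := by
    rw [aeval_rename, aeval_rename]
    exact p_unit G F H u e N
  have l1 : ∀ s, pcLift _ _ _ hb hb' (pv _ _ s) = b s := pcLift_pv _ _ _ hb hb'
  have l2 : ∀ s, pcLift _ _ _ ha ha' (pv _ _ s) = a s := pcLift_pv _ _ _ ha ha'
  have m1 : pcLift _ _ _ hb hb' ζ = η := by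
    rw [hζ, hη]
    exact l1 (Sum.inr ())
  have m2 : pcLift _ _ _ ha ha' η = ζ := by
    rw [hζ, hη]
    exact l2 (Sum.inr (Sum.inr ()))
  refine ⟨pcEquiv _ ha ha' _ hb hb' ?_ ?_⟩
  · rintro (i | i | _)
    · change pcLift _ _ _ hb hb' (((ζ ^ (-w i) : (E3 G F H u e N)ˣ) : E3 G F H u e N) *
        gx G F H u e N i) = px G F H u e N i
      have h3 := l1 (Sum.inl (Sum.inl i))
      change pcLift _ _ _ hb hb' (gx G F H u e N i) =
        ((η ^ w i : (T3 G F H u e N)ˣ) : T3 G F H u e N) * px G F H u e N i at h3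
      rw [map_mul, map_zpow_unit _ ζ η m1, h3, zpow_cancel]
    · exact l1 (Sum.inl (Sum.inr i))
    · exact l1 (Sum.inr ())
  · rintro ((i | i) | _)
    · change pcLift _ _ _ ha ha' (((η ^ w i : (T3 G F H u e N)ˣ) : T3 G F H u e N) *
        px G F H u e N i) = gx G F H u e N i
      have h3 := l2 (Sum.inl i)
      change pcLift _ _ _ ha ha' (px G F H u e N i) =
        ((ζ ^ (-w i) : (E3 G F H u e N)ˣ) : E3 G F H u e N) * gx G F H u e N i at h3
      rw [map_mul, map_zpow_unit _ η ζ m2, h3, zpow_cancel']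
    · exact l2 (Sum.inr (Sum.inl i))
    · exact l2 (Sum.inr (Sum.inr ()))

end rel

section rel_all

variable {σ τ κ ι : Type} [Finite σ] [Finite τ] {G : κ → MvPolynomial σ k}
  {F : MvPolynomial σ k} {H : ι → MvPolynomial τ k} {u e : MvPolynomial τ k} {w : σ → ℤ} {N : ℕ}

/-- The scheme `F (x) = e (t)` over the base `H (t) = 0`, `u (t) ≠ 0`. -/
theorem rel_all (hP : Cov P) (hF : Sp P G F w N) (h1 : P (aff k (Pc (adj H e) u)))
    (h2 : P (aff k (Pc (kr H e N) (rename Sum.inl (u * e))))) :
    P (aff k (Pc (rr G F H e) (rename Sum.inr u))) := by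
  refine pc_total hP.toBnd (e := rename Sum.inr e) ?_ ?_
  · have h3 := prd hP hF.zero h1
    have z1 : pc (adj (rr G F H e) (rename Sum.inr e)) (rename Sum.inr u) (rename Sum.inr e) = 0 :=
      pc_rel (adj (rr G F H e) (rename Sum.inr e)) (rename Sum.inr u) none
    have z2 : pc (two (adj G F) (adj H e)) (bw 1 u) (rename Sum.inr e) = 0 :=
      pc_rel (two (adj G F) (adj H e)) (bw 1 u) (Sum.inr none)
    have hb : (bw 1 u : MvPolynomial (σ ⊕ τ) k) = rename Sum.inr u := by
      rw [bw, map_one, one_mul]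
    refine same hP ?_ ?_ ?_ ?_ h3
    · rintro ((_ | j) | _ | j)
      · change pc _ _ (rename Sum.inl F) = 0
        have h4 := pc_rel (adj (rr G F H e) (rename Sum.inr e)) (rename Sum.inr u)
          (some (Sum.inr none))
        change pc _ _ (rename Sum.inl F - rename Sum.inr e) = 0 at h4
        rw [map_sub, z1, sub_zero] at h4
        exact h4
      · exact pc_rel (adj (rr G F H e) (rename Sum.inr e)) (rename Sum.inr u) (some (Sum.inl j))
      · exact z1
      · exact pc_rel (adj (rr G F H e) (rename Sum.inr e)) (rename Sum.inr u)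
          (some (Sum.inr (some j)))
    · rw [hb]
      exact pc_unit _ _
    · rintro (_ | j | _ | j)
      · exact z2
      · exact pc_rel (two (adj G F) (adj H e)) (bw 1 u) (Sum.inl (some j))
      · change pc _ _ (rename Sum.inl F - rename Sum.inr e) = 0
        rw [map_sub, z2, sub_zero]
        exact pc_rel (two (adj G F) (adj H e)) (bw 1 u) (Sum.inl none)
      · exact pc_rel (two (adj G F) (adj H e)) (bw 1 u) (Sum.inr (some j))
    · rw [← hb]
      exact pc_unit _ _
  · obtain ⟨E⟩ := eqv3 H u e hF.eqs hF.homog hF.pos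
    rw [← map_mul]
    exact kum hP (rename Sum.inr e) hF.pos (iso_alg hP.toUni E (prd hP hF.level h2))

end rel_all

end Pool.Agent.Q200.SFD
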