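import Pool.Agent.Q200.SFD.Sum

/-!
# The levels of a weighted homogeneous polynomial are smooth
-/

set_option autoImplicit false

open MvPolynomial Pool.Agent.Z125.UN Pool.Agent.Y116.UV Pool.Agent.Q200.SFC

namespace Pool.Agent.Q200.SFD

variable {k : Type} [Field k] {σ : Type}

lemma one_sub_pow {B : Type} [CommRing B] {a : B} (ha : a * a = 0) (n : ℕ) :
    (1 - a) ^ n = 1 - n * a := by
  induction n with
  | zero => simp
  | succ n ih =>
    rw [pow_succ, ih]
    push_cast
    linear_combination (n : B) * ha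

/-- The hypersurface `F = c` is smooth if `c ≠ 0` and the degree of `F` is not divisible by the
characteristic. -/
theorem smooth_level [Finite σ] {F : MvPolynomial σ k} {w : σ → ℤ} {N : ℕ}
    (hF : IsWeightedHomogeneous w F (N : ℤ)) (hN : (N : k) ≠ 0) {c : k} (hc : c ≠ 0) :
    Algebra.Smooth k (MvPolynomial σ k ⧸ Ideal.span {F - C c}) where
  finitePresentation :=
    Algebra.FinitePresentation.quotient ⟨{F - C c}, by rw [Finset.coe_singleton]⟩
  formallySmooth := by
    refine Algebra.FormallySmooth.of_comp_surjective fun B _ _ I hI f => ?_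
    have hx : ∀ i, ∃ b : B, Ideal.Quotient.mkₐ k I b =
        f (Ideal.Quotient.mkₐ k (Ideal.span {F - C c}) (X i)) := fun i =>
      Ideal.Quotient.mk_surjective _
    choose x hx using hx
    have hf : aeval (fun i => Ideal.Quotient.mkₐ k I (x i)) F = algebraMap k (B ⧸ I) c := by
      have h1 : (aeval (fun i => Ideal.Quotient.mkₐ k I (x i)) : MvPolynomial σ k →ₐ[k] B ⧸ I) =
          f.comp (Ideal.Quotient.mkₐ k (Ideal.span {F - C c})) := by
        apply MvPolynomial.algHom_ext
        intro i
        rw [aeval_X, hx]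
        rfl
      rw [h1]
      have h2 : Ideal.Quotient.mkₐ k (Ideal.span {F - C c}) F =
          Ideal.Quotient.mkₐ k (Ideal.span {F - C c}) (C c) := by
        rw [← sub_eq_zero, ← map_sub]
        exact Ideal.Quotient.eq_zero_iff_mem.2 (Ideal.mem_span_singleton_self _)
      rw [AlgHom.comp_apply, h2]
      change (f.comp (Ideal.Quotient.mkₐ k (Ideal.span {F - C c}))) (algebraMap k _ c) = _
      rw [AlgHom.commutes]
    set ε : B := aeval x F - algebraMap k B c with hε
    have hεI : ε ∈ I := by
      rw [← Ideal.Quotient.eq_zero_iff_mem, hε]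
      change Ideal.Quotient.mkₐ k I (aeval x F - algebraMap k B c) = 0
      rw [map_sub, AlgHom.commutes, ← hf, sub_eq_zero]
      have h3 : (aeval (fun i => Ideal.Quotient.mkₐ k I (x i)) : MvPolynomial σ k →ₐ[k] B ⧸ I) =
          (Ideal.Quotient.mkₐ k I).comp (aeval x) := by
        apply MvPolynomial.algHom_ext
        intro i
        rw [aeval_X, AlgHom.comp_apply, aeval_X]
      rw [h3]
      rfl
    have hεε : ε * ε = 0 := by
      have h4 : ε * ε ∈ I ^ 2 := by
        rw [pow_two]
        exact Ideal.mul_mem_mul hεI hεI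
      rw [hI] at h4
      exact h4
    set r : B := algebraMap k B ((N : k) * c)⁻¹ with hr
    have hrN : r * (N * algebraMap k B c) = 1 := by
      rw [hr, ← map_natCast (algebraMap k B) N, ← map_mul, ← map_mul,
        inv_mul_cancel₀ (mul_ne_zero hN hc), map_one]
    let s : Bˣ := Units.mkOfMulEqOne (1 - ε * r) (1 + ε * r) (by linear_combination (-(r * r)) * hεε)
    have hs : (s : B) = 1 - ε * r := rfl
    have hsN : ((s ^ (N : ℤ) : Bˣ) : B) * aeval x F = algebraMap k B c := by
      have h5 : aeval x F = algebraMap k B c + ε := by rw [hε]; ring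
      rw [zpow_natCast, Units.val_pow_eq_pow_val, hs,
        one_sub_pow (by linear_combination (r * r) * hεε), h5]
      linear_combination (-ε) * hrN - ((N : B) * r) * hεε
    have hsI : ∀ n : ℤ, Ideal.Quotient.mkₐ k I ((s ^ n : Bˣ) : B) = 1 := by
      intro n
      have h6 : Ideal.Quotient.mkₐ k I ε = 0 := Ideal.Quotient.eq_zero_iff_mem.2 hεI
      have h7 : Ideal.Quotient.mkₐ k I (s : B) = ((1 : (B ⧸ I)ˣ) : B ⧸ I) := by
        rw [hs, map_sub, map_mul, h6, zero_mul, sub_zero, map_one, Units.val_one]
      rw [map_zpow_unit _ s 1 h7, one_zpow, Units.val_one]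
    refine ⟨Ideal.Quotient.liftₐ (Ideal.span {F - C c})
      (aeval fun i => ((s ^ w i : Bˣ) : B) * x i) ?_, ?_⟩
    · intro a ha
      obtain ⟨b, rfl⟩ := Ideal.mem_span_singleton'.1 ha
      rw [map_mul, map_sub, aeval_zscale hF, hsN, aeval_C, sub_self, mul_zero]
    · apply Ideal.Quotient.algHom_ext
      apply MvPolynomial.algHom_ext
      intro i
      change Ideal.Quotient.mkₐ k I (aeval (fun i => ((s ^ w i : Bˣ) : B) * x i) (X i)) =
        f (Ideal.Quotient.mkₐ k (Ideal.span {F - C c}) (X i))
      rw [aeval_X, map_mul, hsI, one_mul, hx]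

end Pool.Agent.Q200.SFD
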