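import Pool.Agent.Q200.SFD.Mem

/-!
# Sums and levels
-/

set_option autoImplicit false

open MvPolynomial TensorProduct Pool.Agent.Z125.UN Pool.Agent.Y116.UV Pool.Agent.Q200.SFC

namespace Pool.Agent.Q200.SFD

variable {k : Type} [Field k] {P : Sch k → Prop}

section lv

variable {σ κ : Type} [Finite σ] {G : κ → MvPolynomial σ k} {F : MvPolynomial σ k} {w : σ → ℤ}
  {N n : ℕ}

lemma Sp.small (hn : Dm P n) (hG : ∀ j, ∃ d : ℤ, IsWeightedHomogeneous w (G j) d)
    (hF : IsWeightedHomogeneous w F (N : ℤ)) (hN : 0 < N)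
    (d0 : ringKrullDim (Pc (adj G F) 1) ≤ n) (d1 : ringKrullDim (Pc (adj G (F - 1)) 1) ≤ n) :
    Sp P G F w N := ⟨hG, hF, hN, hn _ d0, hn _ d1⟩

/-- the only copy -/
def oneS (σ : Type) : (Σ _ : Fin 1, σ) ≃ σ where
  toFun x := x.2
  invFun x := ⟨0, x⟩
  left_inv := by
    rintro ⟨i, x⟩
    have hi : i = 0 := Subsingleton.elim _ _
    subst hi
    rfl
  right_inv _ := rfl

omit [Finite σ] in
lemma ren_one (p : MvPolynomial σ k) (i : Fin 1) : rename (oneS σ) (rename (Sigma.mk i) p) = p := by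
  rw [rename_rename]
  exact rename_id_apply p

/-- The levels. -/
lemma Sp.lv (hP : Cov P) (hn : Dm P n) (h : Sp P G F w N) (c : k) :
    P (aff k (Pc (adj G (F - C c)) 1)) := by
  have h0 : (X 0 - C c : MvPolynomial (Fin (0 + 1)) k) ≠ 0 := by
    intro h1
    have h2 := congrArg (coeff (Finsupp.single 0 1)) h1
    rw [coeff_sub, coeff_X, if_pos rfl, coeff_C,
      if_neg (Finsupp.single_ne_zero.2 one_ne_zero).symm, sub_zero, coeff_zero] at h2
    exact one_ne_zero h2
  have h1 := pre_one (m := 0) (σ := fun _ => σ) (κ := fun _ => κ) (G := fun _ => G)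
    (F := fun _ => F) (w := fun _ => w) (N := fun _ => N) hP hn (Nat.zero_le n) (fun _ => h) h0
  have e0 : rename (oneS σ) (cmm (fun _ : Fin (0 + 1) => F) (X 0 - C c)) = F - C c := by
    rw [cmm, map_sub, aeval_X, aeval_C, map_sub, ren_one]
    congr 1
    exact rename_C _ _
  have e1 : ∀ (i : Fin 1) (l : κ), rename (oneS σ)
      (allr (σ := fun _ : Fin (0 + 1) => σ) (κ := fun _ => κ) (fun _ => G) ⟨i, l⟩) = G l :=
    fun i l => ren_one _ _
  refine perm hP (oneS σ) ?_ ?_ (map_one _) h1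
  · rintro (_ | ⟨i, l⟩)
    · exact ⟨none, e0⟩
    · exact ⟨some l, e1 i l⟩
  · rintro (_ | l)
    · exact ⟨none, e0⟩
    · exact ⟨some ⟨0, l⟩, e1 0 l⟩

end lv

section two

/-- a family of two types -/
def T2 (A B : Type) : Fin 2 → Type := Fin.cases A fun _ => B

instance (A B : Type) [Finite A] [Finite B] (i : Fin 2) : Finite (T2 A B i) := by
  refine Fin.cases ?_ (fun _ => ?_) i
  · exact (inferInstance : Finite A)
  · exact (inferInstance : Finite B)

/-- the variables of two blocks -/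
def sgE (A B : Type) : (Σ i, T2 A B i) ≃ A ⊕ B where
  toFun x := Fin.cases (motive := fun i => T2 A B i → A ⊕ B) Sum.inl (fun _ => Sum.inr) x.1 x.2
  invFun := Sum.elim (fun a => ⟨0, a⟩) fun b => ⟨1, b⟩
  left_inv := by
    rintro ⟨i, x⟩
    revert x
    refine Fin.cases (fun x => rfl) (fun j => ?_) i
    have hj : j = 0 := Subsingleton.elim _ _
    subst hj
    exact fun x => rfl
  right_inv := by rintro (x | x) <;> rfl

variable {σ τ κ κ' : Type} [Finite σ] [Finite τ] {G : κ → MvPolynomial σ k}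
  {G' : κ' → MvPolynomial τ k} {F : MvPolynomial σ k} {F' : MvPolynomial τ k} {v : σ → ℤ}
  {w : τ → ℤ} {N M n : ℕ}

/-- the two families of relations -/
noncomputable def G2 (G : κ → MvPolynomial σ k) (G' : κ' → MvPolynomial τ k) :
    ∀ i, T2 κ κ' i → MvPolynomial (T2 σ τ i) k := fun i =>
  Fin.cases (motive := fun i => T2 κ κ' i → MvPolynomial (T2 σ τ i) k) G (fun _ => G') i

/-- the two functions -/
noncomputable def F2 (F : MvPolynomial σ k) (F' : MvPolynomial τ k) :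
    ∀ i, MvPolynomial (T2 σ τ i) k := fun i =>
  Fin.cases (motive := fun i => MvPolynomial (T2 σ τ i) k) F (fun _ => F') i

/-- the two families of weights -/
def w2 (v : σ → ℤ) (w : τ → ℤ) : ∀ i, T2 σ τ i → ℤ := fun i =>
  Fin.cases (motive := fun i => T2 σ τ i → ℤ) v (fun _ => w) i

/-- Sums of two functions of the same weight. -/
lemma Sp.add' (hP : Cov P) (hn : Dm P n) (h1 : 1 ≤ n) (hF : Sp P G F v N) (hG : Sp P G' F' w N) :
    ∃ u, Sp P (two G G') (rename Sum.inl F + rename Sum.inr F') u N := by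
  have h2 : ∀ i, Sp P (G2 G G' i) (F2 F F' i) (w2 v w i) ((fun _ => N : Fin 2 → ℕ) i) := by
    intro i
    refine Fin.cases ?_ (fun _ => ?_) i
    · exact hF
    · exact hG
  have h0 : (X 0 + X 1 : MvPolynomial (Fin (1 + 1)) k) ≠ 0 := by
    intro h3
    have h4 := congrArg (coeff (Finsupp.single 0 1)) h3
    rw [coeff_add, coeff_X, if_pos rfl, coeff_X, if_neg, add_zero, coeff_zero] at h4
    · exact one_ne_zero h4
    · intro h5
      have h6 := DFunLike.congr_fun h5 0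
      rw [Finsupp.single_eq_same, Finsupp.single_eq_of_ne (by decide)] at h6
      exact zero_ne_one h6
  have h3 : IsWeightedHomogeneous (fun _ : Fin 2 => N) (X 0 + X 1 : MvPolynomial (Fin (1 + 1)) k) N :=
    (isWeightedHomogeneous_X k (fun _ : Fin 2 => N) 0).add
      (isWeightedHomogeneous_X k (fun _ : Fin 2 => N) 1)
  have h4 := Sp.comp hP hn h1 h2 h0 hF.pos h3
  have e0 : cmm (F2 F F') (X 0 + X 1 : MvPolynomial (Fin (1 + 1)) k) =
      rename (Sigma.mk (β := T2 σ τ) 0) F + rename (Sigma.mk (β := T2 σ τ) 1) F' := by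
    rw [cmm, map_add, aeval_X, aeval_X]
    rfl
  have e1 : rename (sgE σ τ) (cmm (F2 F F') (X 0 + X 1 : MvPolynomial (Fin (1 + 1)) k)) =
      rename Sum.inl F + rename Sum.inr F' := by
    rw [e0]
    exact (map_add _ _ _).trans (congrArg₂ (· + ·)
      (rename_rename (Sigma.mk (β := T2 σ τ) 0) (sgE σ τ) F)
      (rename_rename (Sigma.mk (β := T2 σ τ) 1) (sgE σ τ) F'))
  have e2 : ∀ l, rename (sgE σ τ) (rename (Sigma.mk (β := T2 σ τ) 0) (G l)) =
      rename Sum.inl (G l) :=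
    fun l => rename_rename (Sigma.mk (β := T2 σ τ) 0) (sgE σ τ) (G l)
  have e3 : ∀ l, rename (sgE σ τ) (rename (Sigma.mk (β := T2 σ τ) 1) (G' l)) =
      rename Sum.inr (G' l) :=
    fun l => rename_rename (Sigma.mk (β := T2 σ τ) 1) (sgE σ τ) (G' l)
  refine ⟨_, h4.ren hP (sgE σ τ) ?_ ?_ e1⟩
  · rintro ⟨i, l⟩
    revert l
    refine Fin.cases (fun l => ⟨Sum.inl l, e2 l⟩) (fun j => ?_) i
    have hj : j = 0 := Subsingleton.elim _ _
    subst hj
    exact fun l => ⟨Sum.inr l, e3 l⟩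
  · rintro (l | l)
    · exact ⟨⟨0, l⟩, e2 l⟩
    · exact ⟨⟨1, l⟩, e3 l⟩

lemma Sp.add (hP : Cov P) (hn : Dm P n) (h1 : 1 ≤ n) (hF : Sp P G F v N) (hG : Sp P G' F' w M) :
    ∃ u, Sp P (two G G') (rename Sum.inl F + rename Sum.inr F') u (N * M) := by
  have h2 := hF.weights hG.pos
  rw [mul_comm] at h2
  exact Sp.add' hP hn h1 h2 (hG.weights hF.pos)

end two

section sum

/-- the variables -/
def sucE {m : ℕ} (σ : Fin (m + 1) → Type) : σ 0 ⊕ (Σ i : Fin m, σ i.succ) ≃ Σ i, σ i where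
  toFun := Sum.elim (fun x => ⟨0, x⟩) fun y => ⟨y.1.succ, y.2⟩
  invFun x := Fin.cases (motive := fun i => σ i → σ 0 ⊕ (Σ i : Fin m, σ i.succ))
    (fun x => Sum.inl x) (fun j x => Sum.inr ⟨j, x⟩) x.1 x.2
  left_inv := by rintro (x | ⟨j, x⟩) <;> rfl
  right_inv := by
    rintro ⟨i, x⟩
    revert x
    refine Fin.cases ?_ (fun i => ?_) i <;> intro x <;> rfl

variable {n : ℕ}

/-- Sums in disjoint variables. -/
theorem Sp.sum (hP : Cov P) (hn : Dm P n) (h1 : 1 ≤ n) : ∀ (m : ℕ) (σ κ : Fin m → Type)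
    (_ : ∀ i, Finite (σ i)) (G : ∀ i, κ i → MvPolynomial (σ i) k) (F : ∀ i, MvPolynomial (σ i) k)
    (w : ∀ i, σ i → ℤ) (N : Fin m → ℕ), (∀ i, Sp P (G i) (F i) (w i) (N i)) →
    ∃ v, Sp P (allr G) (∑ i, rename (Sigma.mk i) (F i)) v (∏ i, N i)
  | 0, σ, κ, _, G, F, w, N, _ => by
    refine ⟨fun _ => 0, ?_⟩
    rw [Fin.sum_univ_zero, Fin.prod_univ_zero]
    have := Fintype.ofFinite (Σ i, σ i)
    refine Sp.of_total hP (fun j => j.1.elim0) (isWeightedHomogeneous_zero _ _ _) Nat.one_pos ?_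
      (p_empty hP.toBnd _ ?_)
    · refine same hP ?_ ?_ ?_ ?_ (spc hP (Σ i, σ i))
      · rintro ⟨⟩
      · rw [map_one]
        exact isUnit_one
      · exact fun j => j.1.elim0
      · rw [map_one]
        exact isUnit_one
    · have h2 := pc_rel (adj (allr G) (0 - 1)) 1 none
      change pc _ _ (0 - 1) = 0 at h2
      rw [map_sub, map_zero, map_one] at h2
      exact subsingleton_of_zero_eq_one (sub_eq_zero.1 h2)
  | m + 1, σ, κ, _, G, F, w, N, hF => by
    obtain ⟨v, hv⟩ := Sp.sum hP hn h1 m (fun i => σ i.succ) (fun i => κ i.succ)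
      (fun i => inferInstance) (fun i => G i.succ) (fun i => F i.succ) (fun i => w i.succ)
      (fun i => N i.succ) fun i => hF i.succ
    obtain ⟨u, hu⟩ := Sp.add hP hn h1 (hF 0) hv
    rw [Fin.prod_univ_succ, Fin.sum_univ_succ]
    have e0 : rename (sucE σ) (rename Sum.inl (F 0) +
        rename Sum.inr (∑ i : Fin m, rename (Sigma.mk i) (F i.succ))) =
        rename (Sigma.mk 0) (F 0) + ∑ i : Fin m, rename (Sigma.mk i.succ) (F i.succ) := by
      rw [map_add, rename_rename, rename_rename, map_sum]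
      simp only [rename_rename]
      rfl
    have e1 : ∀ l, rename (sucE σ) (rename Sum.inl (G 0 l)) = rename (Sigma.mk 0) (G 0 l) := by
      intro l
      rw [rename_rename]
      rfl
    have e2 : ∀ (i : Fin m) (l : κ i.succ), rename (sucE σ) (rename Sum.inr
        (rename (Sigma.mk i) (G i.succ l))) = rename (Sigma.mk i.succ) (G i.succ l) := by
      intro i l
      rw [rename_rename, rename_rename]
      rfl
    refine ⟨_, hu.ren hP (sucE σ) ?_ ?_ e0⟩
    · rintro (l | ⟨i, l⟩)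
      · exact ⟨⟨0, l⟩, e1 l⟩
      · exact ⟨⟨i.succ, l⟩, e2 i l⟩
    · rintro ⟨i, l⟩
      revert l
      exact Fin.cases (fun l => ⟨Sum.inl l, e1 l⟩) (fun i l => ⟨Sum.inr ⟨i, l⟩, e2 i l⟩) i

end sum

end Pool.Agent.Q200.SFD
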